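import Pool.Agent.Tvw.Help

/-!
# The integral over the orthant (MP_001fdd_co, absolute constant, module Box)
-/

set_option autoImplicit false

namespace Pool.Agent.Tvw

open scoped Classical ENNReal
open MeasureTheory

/-- the exponential density with mean `r` -/
noncomputable def bw (r : ℝ) : ℝ → ℝ :=
  Set.indicator (Set.Ioi 0) (fun t => r⁻¹ * Real.exp (-(r⁻¹ * t)))

theorem bw_mul (r : ℝ) (f : ℝ → ℝ) :
    (fun t => f t * bw r t) =
      Set.indicator (Set.Ioi 0) (fun t => r⁻¹ * (f t * Real.exp (-(r⁻¹ * t)))) := by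
  funext t
  unfold bw
  by_cases h : t ∈ Set.Ioi (0 : ℝ)
  · rw [Set.indicator_of_mem h, Set.indicator_of_mem h]
    ring
  · rw [Set.indicator_of_notMem h, Set.indicator_of_notMem h, mul_zero]

theorem bw_pow (r : ℝ) (hr : 0 < r) (n : ℕ) :
    Integrable (fun t => t ^ n * bw r t) ∧ ∫ t, t ^ n * bw r t = n.factorial * r ^ n := by
  have hr1 : 0 < r⁻¹ := inv_pos.2 hr
  have h1 : IntegrableOn (fun t : ℝ => t ^ n * Real.exp (-(r⁻¹ * t))) (Set.Ioi 0) := by
    have := integrableOn_rpow_mul_exp_neg_mul_rpow (p := 1) (s := n) (b := r⁻¹)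
      (by have : (0 : ℝ) ≤ n := Nat.cast_nonneg n
          linarith) one_pos hr1
    refine this.congr_fun (fun t ht => ?_) measurableSet_Ioi
    simp only [Real.rpow_natCast, Real.rpow_one, neg_mul]
  have h2 : ∫ t in Set.Ioi (0 : ℝ), t ^ n * Real.exp (-(r⁻¹ * t)) =
      n.factorial * r ^ (n + 1) := by
    have := Real.integral_rpow_mul_exp_neg_mul_Ioi (a := (n : ℝ) + 1) (r := r⁻¹)
      (by positivity) hr1
    simp only [add_sub_cancel_right, Real.rpow_natCast] at this
    rw [this, Real.Gamma_nat_eq_factorial, one_div, inv_inv]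
    have h3 : r ^ ((n : ℝ) + 1) = r ^ (n + 1) := by
      rw [← Real.rpow_natCast]
      push_cast
      rfl
    rw [h3]
    ring
  rw [bw_mul, integrable_indicator_iff measurableSet_Ioi, integral_indicator measurableSet_Ioi]
  refine ⟨h1.const_mul _, ?_⟩
  rw [integral_const_mul, h2]
  field_simp
  ring

theorem vBox (hQ : Stmt_Quad) : Stmt_Box := by
  intro ι _ u τ hu hτ
  set Qτ : ℝ := ∑ c, (∑ a, τ a * u a c) ^ 2 with hQτ
  set n : ℝ := (Fintype.card ι : ℝ) with hn
  set V : ℝ := ∑ i, (τ i) ^ 2 * ∑ c, (u i c) ^ 2 with hV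
  set E0 : ℝ := (∏ i, τ i) * Real.exp (n - Qτ / 2 - V / 2) with hE0
  have hP : 0 < ∏ i, τ i := Finset.prod_pos fun i _ => (hτ i).1
  have hE0p : 0 < E0 := mul_pos hP (Real.exp_pos _)
  set p : ι → ℝ := fun a => ∑ c, (∑ b, τ b * u b c) * u a c with hp
  let w : ι → ℝ → ℝ := fun i s => bw (τ i) (s + τ i)
  have hbw := fun (i : ι) (m : ℕ) => bw_pow (τ i) (hτ i).1 m
  have J0 : ∀ i, Integrable (bw (τ i)) := fun i => by
    have := (hbw i 0).1
    simpa using this
  have J1 : ∀ i, Integrable (fun t => t * bw (τ i) t) := fun i => by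
    have := (hbw i 1).1
    simpa using this
  have J2 : ∀ i, Integrable (fun t => t ^ 2 * bw (τ i) t) := fun i => (hbw i 2).1
  have K0 : ∀ i, ∫ t, bw (τ i) t = 1 := fun i => by
    have := (hbw i 0).2
    simpa using this
  have K1 : ∀ i, ∫ t, t * bw (τ i) t = τ i := fun i => by
    have := (hbw i 1).2
    simpa using this
  have K2 : ∀ i, ∫ t, t ^ 2 * bw (τ i) t = 2 * (τ i) ^ 2 := fun i => by
    have := (hbw i 2).2
    simpa [Nat.factorial] using this
  have L1 : ∀ i, Integrable (fun t => (t - τ i) * bw (τ i) t) := fun i => by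
    have := (J1 i).sub ((J0 i).const_mul (τ i))
    refine this.congr (Filter.Eventually.of_forall fun t => ?_)
    simp only [Pi.sub_apply]
    ring
  have L2 : ∀ i, Integrable (fun t => (t - τ i) ^ 2 * bw (τ i) t) := fun i => by
    have := ((J2 i).sub ((J1 i).const_mul (2 * τ i))).add ((J0 i).const_mul ((τ i) ^ 2))
    refine this.congr (Filter.Eventually.of_forall fun t => ?_)
    simp only [Pi.sub_apply, Pi.add_apply]
    ring
  have M1 : ∀ i, ∫ t, (t - τ i) * bw (τ i) t = 0 := fun i => by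
    have h1 : ∀ t, (t - τ i) * bw (τ i) t = t * bw (τ i) t - τ i * bw (τ i) t := fun t => by ring
    simp only [h1]
    rw [integral_sub (J1 i) ((J0 i).const_mul _), integral_const_mul, K0, K1]
    ring
  have M2 : ∀ i, ∫ t, (t - τ i) ^ 2 * bw (τ i) t = (τ i) ^ 2 := fun i => by
    have h1 : ∀ t, (t - τ i) ^ 2 * bw (τ i) t =
        (t ^ 2 * bw (τ i) t - 2 * τ i * (t * bw (τ i) t)) + (τ i) ^ 2 * bw (τ i) t :=
      fun t => by ring
    have h2 : Integrable (fun t => t ^ 2 * bw (τ i) t - 2 * τ i * (t * bw (τ i) t)) :=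
      (J2 i).sub ((J1 i).const_mul _)
    simp only [h1]
    rw [integral_add h2 ((J0 i).const_mul _),
      integral_sub (J2 i) ((J1 i).const_mul _), integral_const_mul, integral_const_mul, K0, K1,
      K2]
    ring
  obtain ⟨hint, hval⟩ := hQ ι ι u w (fun i => (τ i) ^ 2)
    (fun i => (J0 i).comp_add_right (τ i))
    (fun i => by
      have := (L1 i).comp_add_right (τ i)
      simpa [w] using this)
    (fun i => by
      have := (L2 i).comp_add_right (τ i)
      simpa [w] using this)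
    (fun i => by
      have := integral_add_right_eq_self (fun t => (t - τ i) * bw (τ i) t) (μ := volume) (τ i)
      rw [M1] at this
      simpa [w] using this)
    (fun i => by
      have h1 := integral_add_right_eq_self (fun t => (t - τ i) ^ 2 * bw (τ i) t)
        (μ := volume) (τ i)
      have h2 := integral_add_right_eq_self (fun t => bw (τ i) t) (μ := volume) (τ i)
      rw [M2] at h1
      rw [K0] at h2
      simp only [add_sub_cancel_right] at h1
      simp only [w]
      rw [h1, h2, mul_one])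
    (E0 * (1 + V / 2)) (fun i => E0 * ((τ i)⁻¹ - p i)) (-(E0 / 2))
  have hw1 : ∀ i, ∫ s, w i s = 1 := fun i => by
    have h2 := integral_add_right_eq_self (fun t => bw (τ i) t) (μ := volume) (τ i)
    rw [K0] at h2
    exact h2
  have hle := aux_ofReal _ hint
  rw [hval] at hle
  -- the value
  have h1 : Real.exp (7 / 8) ^ Fintype.card ι * ((∏ a, τ a) * Real.exp (-Qτ / 2)) ≤
      (E0 * (1 + V / 2) + -(E0 / 2) * ∑ i, (τ i) ^ 2 * ∑ c, (u i c) ^ 2) *
        ∏ i, ∫ s, w i s := by
    rw [Finset.prod_congr rfl fun i _ => hw1 i, Finset.prod_const_one, mul_one, ← hV]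
    have h3 : V ≤ n / 4 := by
      have h4 : ∀ i, (τ i) ^ 2 * ∑ c, (u i c) ^ 2 ≤ 1 / 4 := by
        intro i
        have h5 : (τ i) ^ 2 ≤ 1 := by nlinarith [(hτ i).1, (hτ i).2]
        have h6 : 0 ≤ ∑ c, (u i c) ^ 2 := Finset.sum_nonneg fun c _ => sq_nonneg _
        nlinarith [hu i, sq_nonneg (τ i)]
      refine (Finset.sum_le_sum fun i _ => h4 i).trans (le_of_eq ?_)
      rw [Finset.sum_const, Finset.card_univ, nsmul_eq_mul, hn]
      ring
    have h7 : E0 * (1 + V / 2) + -(E0 / 2) * V = E0 := by ring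
    rw [h7, hE0, ← Real.exp_nat_mul]
    calc Real.exp ((Fintype.card ι : ℝ) * (7 / 8)) * ((∏ a, τ a) * Real.exp (-Qτ / 2))
        = (∏ a, τ a) * Real.exp (n * (7 / 8) + -Qτ / 2) := by
          rw [Real.exp_add, ← hn]
          ring
      _ ≤ (∏ a, τ a) * Real.exp (n - Qτ / 2 - V / 2) := by
          refine mul_le_mul_of_nonneg_left (Real.exp_le_exp.2 ?_) hP.le
          linarith
  refine (ENNReal.ofReal_le_ofReal h1).trans (hle.trans ?_)
  -- comparison of the functions
  unfold I1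
  rw [← lintegral_indicator (by
    have : {t : ι → ℝ | ∀ a, 0 < t a} = Set.pi Set.univ fun _ => Set.Ioi 0 := by
      ext t; simp
    rw [this]
    exact MeasurableSet.univ_pi fun _ => measurableSet_Ioi)]
  refine le_trans ?_ (le_of_eq (lintegral_add_right_eq_self _ τ))
  refine lintegral_mono fun s => ?_
  beta_reduce
  by_cases hs : ∀ i, 0 < (s + τ) i
  · rw [Set.indicator_of_mem (by exact hs)]
    apply ENNReal.ofReal_le_ofReal
    have h2 : ∏ i, w i (s i) = (∏ i, τ i)⁻¹ * Real.exp (-(n + ∑ i, (τ i)⁻¹ * s i)) := by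
      have h3 : ∀ i, w i (s i) = (τ i)⁻¹ * Real.exp (-(1 + (τ i)⁻¹ * s i)) := by
        intro i
        simp only [w, bw]
        rw [Set.indicator_of_mem (by exact hs i)]
        congr 2
        have := (hτ i).1.ne'
        field_simp
        ring
      rw [Finset.prod_congr rfl fun i _ => h3 i, Finset.prod_mul_distrib,
        Finset.prod_inv_distrib, ← Real.exp_sum, Finset.sum_neg_distrib, Finset.sum_add_distrib]
      simp [hn]
    rw [h2, aux_sq]
    have h3 : Real.exp (-(∑ c, (∑ a, τ a * u a c) ^ 2 +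
        2 * ∑ a, s a * (∑ c, (∑ b, τ b * u b c) * u a c) + ∑ c, (∑ a, s a * u a c) ^ 2) / 2) =
        E0 * Real.exp (∑ i, (τ i)⁻¹ * s i - ∑ a, s a * p a -
          (∑ c, (∑ a, s a * u a c) ^ 2) / 2 + V / 2) *
          ((∏ i, τ i)⁻¹ * Real.exp (-(n + ∑ i, (τ i)⁻¹ * s i))) := by
      rw [hE0]
      have h4 : (∏ i, τ i) * (∏ i, τ i)⁻¹ = 1 := mul_inv_cancel₀ hP.ne'
      calc Real.exp (-(∑ c, (∑ a, τ a * u a c) ^ 2 +
            2 * ∑ a, s a * (∑ c, (∑ b, τ b * u b c) * u a c) +
            ∑ c, (∑ a, s a * u a c) ^ 2) / 2)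
          = ((∏ i, τ i) * (∏ i, τ i)⁻¹) * (Real.exp (n - Qτ / 2 - V / 2) *
              Real.exp (∑ i, (τ i)⁻¹ * s i - ∑ a, s a * p a -
                (∑ c, (∑ a, s a * u a c) ^ 2) / 2 + V / 2) *
              Real.exp (-(n + ∑ i, (τ i)⁻¹ * s i))) := by
            rw [h4, one_mul, ← Real.exp_add, ← Real.exp_add]
            congr 1
            ring
        _ = _ := by ring
    rw [h3]
    refine mul_le_mul_of_nonneg_right ?_ (by positivity)
    have h4 := Real.add_one_le_exp (∑ i, (τ i)⁻¹ * s i - ∑ a, s a * p a -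
      (∑ c, (∑ a, s a * u a c) ^ 2) / 2 + V / 2)
    have h5 : ∑ i, E0 * ((τ i)⁻¹ - p i) * s i =
        E0 * (∑ i, (τ i)⁻¹ * s i - ∑ a, s a * p a) := by
      rw [← Finset.sum_sub_distrib, Finset.mul_sum]
      exact Finset.sum_congr rfl fun i _ => by ring
    rw [h5]
    nlinarith
  · push Not at hs
    obtain ⟨i, hi⟩ := hs
    have h2 : ∏ i, w i (s i) = 0 := by
      refine Finset.prod_eq_zero (Finset.mem_univ i) ?_
      simp only [w, bw]
      rw [Set.indicator_of_notMem]
      rw [Set.mem_Ioi, not_lt]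
      exact hi
    rw [h2, mul_zero, ENNReal.ofReal_zero]
    exact bot_le

end Pool.Agent.Tvw
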