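import Pool.Agent.Tvw.Stmts
import Pool.Agent.Tvv.Pst

/-!
# Sums of squares of determinants (MP_001fdd_co, absolute constant, module CB)
-/

set_option autoImplicit false

namespace Pool.Agent.Tvw

open scoped Classical ENNReal
open Pool.Agent.Tvb (Pos Zero Base Good hat TP)
open Pool.Agent.Tvv
open MeasureTheory

/-- the formula of Cauchy and Binet, symmetric form -/
theorem cb_gen {ι α : Type} [Fintype ι] [DecidableEq ι] [Fintype α] (c : α → ℝ) (w : α → ι → ℝ) :
    ((Fintype.card ι).factorial : ℝ) *
      Matrix.det (Matrix.of fun i j : ι => ∑ s, c s * (w s i * w s j)) =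
      ∑ f : ι → α, (∏ r, c (f r)) * (Matrix.det (Matrix.of fun r => w (f r))) ^ 2 := by
  have h1 : Matrix.det (Matrix.of fun i j : ι => ∑ s, c s * (w s i * w s j)) =
      ∑ f : ι → α, (∏ r, c (f r)) * ((∏ r, w (f r) r) *
        Matrix.det (Matrix.of fun r => w (f r))) := by
    have h2 : (Matrix.of fun i j : ι => ∑ s, c s * (w s i * w s j)) =
        fun i => ∑ s, (c s * w s i) • w s := by
      funext i
      funext j
      simp only [Matrix.of_apply, Finset.sum_apply, Pi.smul_apply, smul_eq_mul]
      exact Finset.sum_congr rfl fun s _ => by ring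
    have h3 := (Matrix.detRowAlternating (n := ι) (R := ℝ)).toMultilinearMap.map_sum
      (fun (i : ι) (s : α) => (c s * w s i) • w s)
    have h4 : Matrix.det (Matrix.of fun i j : ι => ∑ s, c s * (w s i * w s j)) =
        ∑ f : ι → α, Matrix.detRowAlternating (n := ι) (R := ℝ)
          (fun i => (c (f i) * w (f i) i) • w (f i)) := by
      rw [h2]
      exact h3
    rw [h4]
    refine Finset.sum_congr rfl fun f _ => ?_
    have h5 := (Matrix.detRowAlternating (n := ι) (R := ℝ)).toMultilinearMap.map_smul_univ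
      (fun i => c (f i) * w (f i) i) (fun i => w (f i))
    have h6 : Matrix.detRowAlternating (n := ι) (R := ℝ)
        (fun i => (c (f i) * w (f i) i) • w (f i)) =
        (∏ i, (c (f i) * w (f i) i)) • Matrix.detRowAlternating (n := ι) (R := ℝ)
          (fun i => w (f i)) := h5
    rw [h6, Finset.prod_mul_distrib, smul_eq_mul, mul_assoc]
    rfl
  have h2 : ∀ σ : Equiv.Perm ι, Matrix.det (Matrix.of fun i j : ι =>
      ∑ s, c s * (w s i * w s j)) = ∑ f : ι → α, (∏ r, c (f r)) *
        (((Equiv.Perm.sign σ : ℝ) * ∏ r, w (f (σ r)) r) *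
          Matrix.det (Matrix.of fun r => w (f r))) := by
    intro σ
    rw [h1, ← Equiv.sum_comp (Equiv.arrowCongr σ.symm (Equiv.refl α))]
    refine Finset.sum_congr rfl fun f _ => ?_
    have h3 : ∀ r, (Equiv.arrowCongr σ.symm (Equiv.refl α)) f r = f (σ r) := by
      intro r
      simp [Equiv.arrowCongr]
    simp only [h3]
    have h4 : ∏ r, c (f (σ r)) = ∏ r, c (f r) := Equiv.prod_comp σ fun r => c (f r)
    have h5 : Matrix.det (Matrix.of fun r => w (f (σ r))) =
        (Equiv.Perm.sign σ : ℝ) * Matrix.det (Matrix.of fun r => w (f r)) := by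
      rw [← Matrix.det_permute σ (Matrix.of fun r => w (f r))]
      rfl
    rw [h4, h5]
    ring
  calc ((Fintype.card ι).factorial : ℝ) *
      Matrix.det (Matrix.of fun i j : ι => ∑ s, c s * (w s i * w s j))
      = ∑ _σ : Equiv.Perm ι, Matrix.det (Matrix.of fun i j : ι =>
          ∑ s, c s * (w s i * w s j)) := by
        rw [Finset.sum_const, Finset.card_univ, Fintype.card_perm, nsmul_eq_mul]
    _ = ∑ σ : Equiv.Perm ι, ∑ f : ι → α, (∏ r, c (f r)) *
        (((Equiv.Perm.sign σ : ℝ) * ∏ r, w (f (σ r)) r) *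
          Matrix.det (Matrix.of fun r => w (f r))) := Finset.sum_congr rfl fun σ _ => h2 σ
    _ = ∑ f : ι → α, (∏ r, c (f r)) * (Matrix.det (Matrix.of fun r => w (f r))) ^ 2 := by
        rw [Finset.sum_comm]
        refine Finset.sum_congr rfl fun f _ => ?_
        rw [← Finset.mul_sum, ← Finset.sum_mul, sq]
        congr 2
        rw [Matrix.det_apply']
        rfl

/-- a determinant is at most a power of the trace -/
theorem cb_det {ι : Type} [Fintype ι] [DecidableEq ι] (M : Matrix ι ι ℝ) (hM : M.PosSemidef) :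
    M.det ≤ (M.trace / Fintype.card ι) ^ Fintype.card ι := by
  have h1 := pst_amgm (fun i => hM.1.eigenvalues i) fun i => hM.eigenvalues_nonneg i
  have h2 := hM.1.det_eq_prod_eigenvalues
  have h3 := hM.1.trace_eq_sum_eigenvalues
  simp only [RCLike.ofReal_real_eq_id, id_eq] at h2 h3
  rw [h2, h3]
  exact h1

theorem cb_psd {ι α : Type} [Fintype ι] [Fintype α] (c : α → ℝ) (hc : ∀ s, 0 ≤ c s)
    (w : α → ι → ℝ) : (Matrix.of fun i j : ι => ∑ s, c s * (w s i * w s j)).PosSemidef := by
  refine Matrix.PosSemidef.of_dotProduct_mulVec_nonneg ?_ ?_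
  · ext i j
    simp only [Matrix.conjTranspose_apply, Matrix.of_apply, star_trivial]
    exact Finset.sum_congr rfl fun s _ => by ring
  · intro z
    have h1 : star z ⬝ᵥ (Matrix.of fun i j : ι => ∑ s, c s * (w s i * w s j)).mulVec z =
        ∑ s, c s * (∑ i, z i * w s i) ^ 2 := by
      simp only [star_trivial, dotProduct, Matrix.mulVec, Matrix.of_apply]
      calc ∑ i, z i * ∑ j, (∑ s, c s * (w s i * w s j)) * z j
          = ∑ i, ∑ j, ∑ s, c s * ((z i * w s i) * (z j * w s j)) := by
            refine Finset.sum_congr rfl fun i _ => ?_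
            rw [Finset.mul_sum]
            refine Finset.sum_congr rfl fun j _ => ?_
            rw [Finset.sum_mul, Finset.mul_sum]
            exact Finset.sum_congr rfl fun s _ => by ring
        _ = ∑ s, ∑ i, ∑ j, c s * ((z i * w s i) * (z j * w s j)) := by
            rw [Finset.sum_comm (s := (Finset.univ : Finset α))]
            refine Finset.sum_congr rfl fun i _ => ?_
            rw [Finset.sum_comm]
        _ = ∑ s, c s * (∑ i, z i * w s i) ^ 2 := by
            refine Finset.sum_congr rfl fun s _ => ?_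
            rw [sq, Finset.sum_mul_sum, Finset.mul_sum]
            refine Finset.sum_congr rfl fun i _ => ?_
            rw [Finset.mul_sum]
    rw [h1]
    exact Finset.sum_nonneg fun s _ => mul_nonneg (hc s) (sq_nonneg _)

/-- the vectors -/
def cw {k D : ℕ} (x : J k D → Fin D → ℝ) (s : Fin k × J k D) (q : J k D) : ℝ :=
  ev (some s.1) q.1 * x s.2 q.2

theorem cb_le {k D : ℕ} (x : J k D → Fin D → ℝ) (c : Fin k → J k D → ℝ)
    (hc : ∀ j a, 0 ≤ c j a) :
    ∑ π : J k D → Fin k, (dd x (fun a => some (π a))) ^ 2 * ∏ a, c (π a) a ≤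
      Matrix.det (Matrix.of fun i j : J k D =>
        ∑ s : Fin k × J k D, c s.1 s.2 * (cw x s i * cw x s j)) := by
  set w : Fin k × J k D → J k D → ℝ := cw x with hw
  have h1 := cb_gen (ι := J k D) (fun s : Fin k × J k D => c s.1 s.2) w
  -- comparison of the sums
  have hfac : (0 : ℝ) < (Fintype.card (J k D)).factorial := by
    exact_mod_cast Nat.factorial_pos _
  refine le_of_mul_le_mul_left ?_ hfac
  rw [h1]
  let F : (J k D → Fin k) × Equiv.Perm (J k D) → (J k D → Fin k × J k D) :=
    fun u r => (u.1 (u.2 r), u.2 r)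
  have hF : Function.Injective F := by
    rintro ⟨π, σ⟩ ⟨π', σ'⟩ h
    have h4 : σ = σ' := by
      ext1 r
      exact congrArg Prod.snd (congrFun h r)
    subst h4
    have h5 : π = π' := by
      funext a
      have := congrArg Prod.fst (congrFun h (σ.symm a))
      simpa [F] using this
    rw [h5]
  have h4 : ∀ u : (J k D → Fin k) × Equiv.Perm (J k D),
      (∏ r, c (F u r).1 (F u r).2) * (Matrix.det (Matrix.of fun r => w (F u r))) ^ 2 =
      (dd x (fun a => some (u.1 a))) ^ 2 * ∏ a, c (u.1 a) a := by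
    rintro ⟨π, σ⟩
    have h5 : ∏ r, c (F (π, σ) r).1 (F (π, σ) r).2 = ∏ a, c (π a) a :=
      Equiv.prod_comp σ fun a => c (π a) a
    have h6 : Matrix.det (Matrix.of fun r => w (F (π, σ) r)) =
        (Equiv.Perm.sign σ : ℝ) * dd x (fun a => some (π a)) := by
      unfold dd
      rw [← Matrix.det_permute σ, hw]
      rfl
    rw [h5, h6, mul_pow]
    have h7 : ((Equiv.Perm.sign σ : ℤ) : ℝ) ^ 2 = 1 := by
      rcases Int.units_eq_one_or (Equiv.Perm.sign σ) with h | h <;> rw [h] <;> simp
    rw [h7]
    ring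
  calc ((Fintype.card (J k D)).factorial : ℝ) *
        ∑ π : J k D → Fin k, (dd x (fun a => some (π a))) ^ 2 * ∏ a, c (π a) a
      = ∑ u : (J k D → Fin k) × Equiv.Perm (J k D),
          (dd x (fun a => some (u.1 a))) ^ 2 * ∏ a, c (u.1 a) a := by
        rw [Fintype.sum_prod_type, Finset.mul_sum]
        refine Finset.sum_congr rfl fun π _ => ?_
        dsimp only
        rw [Finset.sum_const, Finset.card_univ, Fintype.card_perm, nsmul_eq_mul]
    _ = ∑ u : (J k D → Fin k) × Equiv.Perm (J k D),
          (∏ r, c (F u r).1 (F u r).2) * (Matrix.det (Matrix.of fun r => w (F u r))) ^ 2 :=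
        Finset.sum_congr rfl fun u _ => (h4 u).symm
    _ = ∑ f ∈ Finset.univ.image F,
          (∏ r, c (f r).1 (f r).2) * (Matrix.det (Matrix.of fun r => w (f r))) ^ 2 := by
        rw [Finset.sum_image fun u _ u' _ h => hF h]
    _ ≤ _ := by
        refine Finset.sum_le_sum_of_subset_of_nonneg (Finset.subset_univ _) fun f _ _ => ?_
        exact mul_nonneg (Finset.prod_nonneg fun r _ => hc _ _) (sq_nonneg _)


theorem vCB : Stmt_CB := by
  intro k D x c hx hc
  let w : Fin k × J k D → J k D → ℝ := cw x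
  set M : Matrix (J k D) (J k D) ℝ :=
    Matrix.of fun i j : J k D => ∑ s : Fin k × J k D, c s.1 s.2 * (w s i * w s j) with hM
  have hpsd : M.PosSemidef := cb_psd _ (fun s => hc s.1 s.2) w
  have h2 : M.trace ≤ ∑ j, ∑ a, c j a := by
    rw [hM, Matrix.trace]
    simp only [Matrix.diag_apply, Matrix.of_apply]
    rw [Finset.sum_comm, Fintype.sum_prod_type]
    refine Finset.sum_le_sum fun j _ => Finset.sum_le_sum fun a _ => ?_
    rw [← Finset.mul_sum]
    have h3 : ∑ q : J k D, w (j, a) q * w (j, a) q ≤ 1 := by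
      rw [Fintype.sum_prod_type, Finset.sum_eq_single j]
      · simp only [w, cw, ev, if_true, one_mul]
        refine le_trans (le_of_eq ?_) (hx a)
        exact Finset.sum_congr rfl fun i _ => by ring
      · intro j' _ hj'
        simp [w, cw, ev, Ne.symm hj']
      · intro h; exact absurd (Finset.mem_univ _) h
    calc c j a * ∑ q : J k D, w (j, a) q * w (j, a) q ≤ c j a * 1 :=
          mul_le_mul_of_nonneg_left h3 (hc j a)
      _ = c j a := mul_one _
  have hn : Fintype.card (J k D) = k * D := by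
    rw [Fintype.card_prod, Fintype.card_fin, Fintype.card_fin]
  have htr : 0 ≤ M.trace := by
    rw [hpsd.1.trace_eq_sum_eigenvalues]
    simp only [RCLike.ofReal_real_eq_id, id_eq]
    exact Finset.sum_nonneg fun i _ => hpsd.eigenvalues_nonneg i
  have h3 : M.det ≤ ((∑ j, ∑ a, c j a) / (k * D : ℕ)) ^ (k * D) := by
    refine (cb_det M hpsd).trans ?_
    rw [hn]
    exact pow_le_pow_left₀ (div_nonneg htr (Nat.cast_nonneg _))
      (div_le_div_of_nonneg_right h2 (Nat.cast_nonneg _)) _
  exact (cb_le x c hc).trans h3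

end Pool.Agent.Tvw
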