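import Pool.Agent.Tvw.Help

/-!
# The lower bound (MP_001fdd_co, absolute constant, module CoreW)
-/

set_option autoImplicit false

namespace Pool.Agent.Tvw

open scoped Classical ENNReal
open Pool.Agent.Tvb (Pos Zero Base Good hat TP)
open Pool.Agent.Tvv
open MeasureTheory

/-- the inequality of Cauchy and Schwarz -/
theorem core_cs {α : Type} [Fintype α] (w f g : α → ℝ≥0∞) (c : ℝ≥0∞)
    (h : ∀ a, c ≤ f a * g a) :
    (∑ a, w a) ^ 2 * c ≤ (∑ a, w a * f a) * ∑ a, w a * g a := by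
  have h1 := ENNReal.inner_le_Lp_mul_Lq Finset.univ (fun a => (w a * f a) ^ (1 / 2 : ℝ))
    (fun a => (w a * g a) ^ (1 / 2 : ℝ)) (p := 2) (q := 2) Real.HolderConjugate.two_two
  have h2 : ∀ z : ℝ≥0∞, (z ^ (1 / 2 : ℝ)) ^ (2 : ℝ) = z := by
    intro z
    rw [← ENNReal.rpow_mul]
    norm_num
  simp only [h2] at h1
  have h3 : ∀ a, w a * c ^ (1 / 2 : ℝ) ≤ (w a * f a) ^ (1 / 2 : ℝ) * (w a * g a) ^ (1 / 2 : ℝ) := by
    intro a
    rw [← ENNReal.mul_rpow_of_nonneg _ _ (by norm_num)]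
    have h4 : w a * c ^ (1 / 2 : ℝ) = (w a ^ 2 * c) ^ (1 / 2 : ℝ) := by
      rw [ENNReal.mul_rpow_of_nonneg _ _ (by norm_num)]
      congr 1
      rw [← ENNReal.rpow_natCast, ← ENNReal.rpow_mul]
      norm_num
    rw [h4]
    refine ENNReal.rpow_le_rpow ?_ (by norm_num)
    calc w a ^ 2 * c ≤ w a ^ 2 * (f a * g a) := by gcongr; exact h a
      _ = w a * f a * (w a * g a) := by ring
  have h5 : (∑ a, w a) * c ^ (1 / 2 : ℝ) ≤
      (∑ a, w a * f a) ^ (1 / 2 : ℝ) * (∑ a, w a * g a) ^ (1 / 2 : ℝ) := by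
    rw [Finset.sum_mul]
    exact (Finset.sum_le_sum fun a _ => h3 a).trans h1
  have h6 := pow_le_pow_left₀ (zero_le) h5 2
  have h7 : ∀ z : ℝ≥0∞, (z ^ (1 / 2 : ℝ)) ^ 2 = z := by
    intro z
    rw [← ENNReal.rpow_natCast, ← ENNReal.rpow_mul]
    norm_num
  rw [mul_pow, mul_pow, h7, h7, h7] at h6
  exact h6

/-- the product of the two integrals -/
theorem core_q (hT : Stmt_Tau) (hB : Stmt_Box) (hD : Stmt_Dual) {ι : Type} [Fintype ι]
    (u : ι → ι → ℝ) (hu : ∀ a, ∑ c, (u a c) ^ 2 ≤ 1 / 4) :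
    ENNReal.ofReal ((Real.exp (7 / 8) * √(8 * Real.pi / 5)) ^ Fintype.card ι) ≤
      I1 u * I2 u := by
  obtain ⟨τ, hτ⟩ := hT ι u fun a => (hu a).trans (by norm_num)
  have h1 := hB ι u τ hu fun a => ⟨(hτ a).1, (hτ a).2.1⟩
  have h2 := hD ι u τ hu hτ
  refine le_trans (le_of_eq ?_) (mul_le_mul' h1 h2)
  have hP : 0 < ∏ a, τ a := Finset.prod_pos fun a _ => (hτ a).1
  rw [← ENNReal.ofReal_mul (by positivity)]
  congr 1
  set Q : ℝ := ∑ c, (∑ a, τ a * u a c) ^ 2 with hQ
  have h3 : Real.exp (-Q / 2) * Real.exp (Q / 2) = 1 := by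
    rw [← Real.exp_add]
    have : -Q / 2 + Q / 2 = 0 := by ring
    rw [this, Real.exp_zero]
  calc (Real.exp (7 / 8) * √(8 * Real.pi / 5)) ^ Fintype.card ι
      = Real.exp (7 / 8) ^ Fintype.card ι * √(8 * Real.pi / 5) ^ Fintype.card ι :=
        mul_pow _ _ _
    _ = Real.exp (7 / 8) ^ Fintype.card ι * √(8 * Real.pi / 5) ^ Fintype.card ι *
        ((∏ a, τ a) * (∏ a, τ a)⁻¹) * (Real.exp (-Q / 2) * Real.exp (Q / 2)) := by
        rw [h3, mul_inv_cancel₀ hP.ne', mul_one, mul_one]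
    _ = _ := by ring

/-- the sum of the dual integrals -/
theorem core_dual (hCB : Stmt_CB) (hR : Stmt_Rad) {k D : ℕ} (hk : 1 ≤ k) (hD : 1 ≤ D)
    (z : J k D → Fin D → ℝ) (δ : ℝ) (hδ : 0 < δ) (hz : ∀ a, ∑ i, (z a i) ^ 2 = 1)
    (hiso : ∀ y : Fin D → ℝ, ∑ a, (∑ i, y i * z a i) ^ 2 ≤ (1 + δ) * k * ∑ i, (y i) ^ 2) :
    ∑ π : J k D → Fin k, ENNReal.ofReal ((dd z (fun a => some (π a))) ^ 2) *
      I2 (fun a c => UU z (fun a => some (π a)) a c / 2) ≤
    ENNReal.ofReal ((Real.exp 1 / 2 * ((1 + δ) * k) *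
      (3 / 2 * Real.exp (-(1 / 3)) * √(3 * Real.pi))) ^ (k * D)) := by
  have hk0 : (0 : ℝ) < k := by exact_mod_cast hk
  have hD0 : (0 : ℝ) < D := by exact_mod_cast hD
  have hn : Fintype.card (J k D) = k * D := by
    rw [Fintype.card_prod, Fintype.card_fin, Fintype.card_fin]
  have hnr : ((k * D : ℕ) : ℝ) = (k : ℝ) * D := by push_cast; ring
  have hn0 : (0 : ℝ) < ((k * D : ℕ) : ℝ) := by rw [hnr]; positivity
  set C : ℝ := Real.exp 1 / 2 * ((1 + δ) * k) with hC
  have hC0 : 0 < C := by positivity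
  -- scalar products
  have hsp : ∀ (π : J k D → Fin k) (a : J k D) (y : J k D → ℝ),
      ∑ c, y c * (UU z (fun a => some (π a)) a c / 2) = (∑ i, y (π a, i) * z a i) / 2 := by
    intro π a y
    rw [Fintype.sum_prod_type, Finset.sum_eq_single (π a)]
    · rw [Finset.sum_div]
      exact Finset.sum_congr rfl fun i _ => by
        simp only [UU, ev, if_true, one_mul]
        ring
    · intro j _ hj
      refine Finset.sum_eq_zero fun i _ => ?_
      simp [UU, ev, Ne.symm hj]
    · intro h; exact absurd (Finset.mem_univ _) h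
  -- the pointwise bound
  have hpt : ∀ y : J k D → ℝ, ∑ π : J k D → Fin k, (dd z (fun a => some (π a))) ^ 2 *
      ∏ a, Ps (∑ c, y c * (UU z (fun a => some (π a)) a c / 2)) ≤
      (C * (1 + (∑ c, (y c) ^ 2) / (4 * Fintype.card (J k D)))) ^ (k * D) := by
    intro y
    have h1 := hCB k D z (fun j a => Ps ((∑ i, y (j, i) * z a i) / 2)) (fun a => (hz a).le)
      (fun j a => by unfold Ps; positivity)
    have h2 : ∑ j : Fin k, ∑ a, Ps ((∑ i, y (j, i) * z a i) / 2) ≤
        C * ((k * D : ℕ) + (∑ c, (y c) ^ 2) / 4) := by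
      have h3 : ∀ j : Fin k, ∑ a, Ps ((∑ i, y (j, i) * z a i) / 2) ≤
          Real.exp 1 / 2 * ((k * D : ℕ) + (1 + δ) * k * (∑ i, (y (j, i)) ^ 2) / 4) := by
        intro j
        unfold Ps
        rw [← Finset.mul_sum, Finset.sum_add_distrib, Finset.sum_const, Finset.card_univ, hn,
          nsmul_eq_mul, mul_one]
        refine mul_le_mul_of_nonneg_left ?_ (by positivity)
        have h8 : ∀ a, ((∑ i, y (j, i) * z a i) / 2) ^ 2 =
            (∑ i, y (j, i) * z a i) ^ 2 / 4 := fun a => by ring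
        simp only [h8]
        rw [← Finset.sum_div]
        linarith [hiso fun i => y (j, i)]
      refine (Finset.sum_le_sum fun j _ => h3 j).trans ?_
      rw [← Finset.mul_sum, Finset.sum_add_distrib, Finset.sum_const, Finset.card_univ,
        Fintype.card_fin, nsmul_eq_mul, ← Finset.sum_div, ← Finset.mul_sum,
        ← Fintype.sum_prod_type']
      have h5 : (k : ℝ) * ((k * D : ℕ) : ℝ) ≤ (1 + δ) * k * ((k * D : ℕ) : ℝ) := by
        have : 0 ≤ δ * ((k : ℝ) * ((k * D : ℕ) : ℝ)) := by positivity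
        nlinarith
      have h4 : Real.exp 1 / 2 * ((k : ℝ) * ((k * D : ℕ) : ℝ) +
          (1 + δ) * k * (∑ x : J k D, y x ^ 2) / 4) ≤
          Real.exp 1 / 2 * ((1 + δ) * k * ((k * D : ℕ) : ℝ) +
          (1 + δ) * k * (∑ x : J k D, y x ^ 2) / 4) :=
        mul_le_mul_of_nonneg_left (add_le_add h5 le_rfl) (by positivity)
      refine h4.trans (le_of_eq ?_)
      rw [hC]
      ring
    have h6 : (∑ j : Fin k, ∑ a, Ps ((∑ i, y (j, i) * z a i) / 2)) / (k * D : ℕ) ≤
        C * (1 + (∑ c, (y c) ^ 2) / (4 * Fintype.card (J k D))) := by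
      rw [hn, div_le_iff₀ hn0]
      refine h2.trans (le_of_eq ?_)
      field_simp
    have h7 : 0 ≤ (∑ j : Fin k, ∑ a, Ps ((∑ i, y (j, i) * z a i) / 2)) / (k * D : ℕ) := by
      refine div_nonneg (Finset.sum_nonneg fun j _ => Finset.sum_nonneg fun a _ => ?_) hn0.le
      unfold Ps
      positivity
    refine le_trans (le_of_eq ?_) (h1.trans (pow_le_pow_left₀ h7 h6 _))
    refine Finset.sum_congr rfl fun π _ => ?_
    congr 1
    refine Finset.prod_congr rfl fun a _ => ?_
    rw [hsp]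
  have hmeas : ∀ π : J k D → Fin k, Measurable fun y : J k D → ℝ => ENNReal.ofReal
      ((∏ a, Ps (∑ c, y c * (UU z (fun a => some (π a)) a c / 2))) *
        Real.exp (-(∑ c, (y c) ^ 2) / 2)) := by
    intro π
    have : Continuous fun y : J k D → ℝ =>
        (∏ a, Ps (∑ c, y c * (UU z (fun a => some (π a)) a c / 2))) *
          Real.exp (-(∑ c, (y c) ^ 2) / 2) := by
      unfold Ps
      fun_prop
    exact this.measurable.ennreal_ofReal
  have hPs : ∀ s, 0 ≤ Ps s := fun s => by unfold Ps; positivity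
  calc ∑ π : J k D → Fin k, ENNReal.ofReal ((dd z (fun a => some (π a))) ^ 2) *
        I2 (fun a c => UU z (fun a => some (π a)) a c / 2)
      = ∑ π : J k D → Fin k, ∫⁻ y : J k D → ℝ,
          ENNReal.ofReal ((dd z (fun a => some (π a))) ^ 2) * ENNReal.ofReal
          ((∏ a, Ps (∑ c, y c * (UU z (fun a => some (π a)) a c / 2))) *
            Real.exp (-(∑ c, (y c) ^ 2) / 2)) := by
        refine Finset.sum_congr rfl fun π _ => ?_
        unfold I2
        rw [lintegral_const_mul _ (hmeas π)]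
    _ = ∫⁻ y : J k D → ℝ, ∑ π : J k D → Fin k,
          ENNReal.ofReal ((dd z (fun a => some (π a))) ^ 2) * ENNReal.ofReal
          ((∏ a, Ps (∑ c, y c * (UU z (fun a => some (π a)) a c / 2))) *
            Real.exp (-(∑ c, (y c) ^ 2) / 2)) := by
        rw [lintegral_finsetSum _ fun π _ => (hmeas π).const_mul _]
    _ ≤ ∫⁻ y : J k D → ℝ, ENNReal.ofReal (C ^ (k * D)) * ENNReal.ofReal
          ((1 + (∑ c, (y c) ^ 2) / (4 * Fintype.card (J k D))) ^ Fintype.card (J k D) *
            Real.exp (-(∑ c, (y c) ^ 2) / 2)) := by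
        refine lintegral_mono fun y => ?_
        have h1 : ∀ π : J k D → Fin k,
            ENNReal.ofReal ((dd z (fun a => some (π a))) ^ 2) * ENNReal.ofReal
            ((∏ a, Ps (∑ c, y c * (UU z (fun a => some (π a)) a c / 2))) *
              Real.exp (-(∑ c, (y c) ^ 2) / 2)) =
            ENNReal.ofReal (((dd z (fun a => some (π a))) ^ 2 *
              ∏ a, Ps (∑ c, y c * (UU z (fun a => some (π a)) a c / 2))) *
              Real.exp (-(∑ c, (y c) ^ 2) / 2)) := by
          intro π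
          rw [← ENNReal.ofReal_mul (sq_nonneg _), mul_assoc]
        rw [Finset.sum_congr rfl fun π _ => h1 π, ← ENNReal.ofReal_sum_of_nonneg fun π _ =>
          mul_nonneg (mul_nonneg (sq_nonneg _) (Finset.prod_nonneg fun a _ => hPs _))
            (Real.exp_pos _).le, ← ENNReal.ofReal_mul (by positivity)]
        apply ENNReal.ofReal_le_ofReal
        rw [← Finset.sum_mul, ← mul_assoc]
        refine mul_le_mul_of_nonneg_right ?_ (Real.exp_pos _).le
        refine (hpt y).trans (le_of_eq ?_)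
        rw [mul_pow, hn]
    _ = ENNReal.ofReal (C ^ (k * D)) * ∫⁻ y : J k D → ℝ, ENNReal.ofReal
          ((1 + (∑ c, (y c) ^ 2) / (4 * Fintype.card (J k D))) ^ Fintype.card (J k D) *
            Real.exp (-(∑ c, (y c) ^ 2) / 2)) := by
        rw [lintegral_const_mul' _ _ ENNReal.ofReal_ne_top]
    _ ≤ ENNReal.ofReal (C ^ (k * D)) * ENNReal.ofReal
          ((3 / 2 * Real.exp (-(1 / 3)) * √(3 * Real.pi)) ^ Fintype.card (J k D)) := by
        gcongr
        exact hR (J k D)
    _ = _ := by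
        rw [← ENNReal.ofReal_mul (by positivity), hn, ← mul_pow]

/-- the constants -/
theorem core_num : Real.exp 1 * (√(8 * Real.pi) * (Real.exp 1 / 2 *
    (3 / 2 * Real.exp (-(1 / 3)) * √(3 * Real.pi)))) ≤
    12 * (Real.exp (7 / 8) * √(8 * Real.pi / 5)) := by
  have h1 : √(8 * Real.pi) = √5 * √(8 * Real.pi / 5) := by
    rw [← Real.sqrt_mul (by norm_num)]
    congr 1
    ring
  have h3 : Real.exp 1 * Real.exp 1 * Real.exp (-(1 / 3)) =
      Real.exp (19 / 24) * Real.exp (7 / 8) := by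
    rw [← Real.exp_add, ← Real.exp_add, ← Real.exp_add]
    congr 1
    norm_num
  have h4 : Real.exp 1 * (√(8 * Real.pi) * (Real.exp 1 / 2 *
      (3 / 2 * Real.exp (-(1 / 3)) * √(3 * Real.pi)))) =
      (3 / 4 * (√5 * √(3 * Real.pi)) * Real.exp (19 / 24)) *
        (Real.exp (7 / 8) * √(8 * Real.pi / 5)) := by
    calc Real.exp 1 * (√(8 * Real.pi) * (Real.exp 1 / 2 *
          (3 / 2 * Real.exp (-(1 / 3)) * √(3 * Real.pi))))
        = (3 / 4) * (Real.exp 1 * Real.exp 1 * Real.exp (-(1 / 3))) *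
            (√(8 * Real.pi) * √(3 * Real.pi)) := by ring
      _ = (3 / 4) * (Real.exp (19 / 24) * Real.exp (7 / 8)) *
            ((√5 * √(8 * Real.pi / 5)) * √(3 * Real.pi)) := by rw [h1, h3]
      _ = _ := by ring
  have h5 : 3 / 4 * (√5 * √(3 * Real.pi)) * Real.exp (19 / 24) ≤ 12 := by
    apply le_of_sq_le_sq _ (by norm_num)
    have h6 : (3 / 4 * (√5 * √(3 * Real.pi)) * Real.exp (19 / 24)) ^ 2 =
        135 / 16 * Real.pi * Real.exp (19 / 12) := by
      rw [mul_pow, mul_pow, mul_pow, Real.sq_sqrt (by norm_num), Real.sq_sqrt (by positivity),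
        ← Real.exp_nat_mul]
      have : ((2 : ℕ) : ℝ) * (19 / 24) = 19 / 12 := by norm_num
      rw [this]
      ring
    rw [h6]
    have h7 : Real.exp (19 / 12) ≤ 5.4 := by
      have h8 : (Real.exp (19 / 12)) ^ 12 ≤ (5.4 : ℝ) ^ 12 := by
        have h9 : (Real.exp (19 / 12)) ^ 12 = (Real.exp 1) ^ 19 := by
          rw [← Real.exp_nat_mul, ← Real.exp_nat_mul]
          congr 1
          norm_num
        rw [h9]
        calc (Real.exp 1) ^ 19 ≤ 2.7182818286 ^ 19 :=
              pow_le_pow_left₀ (Real.exp_pos _).le Real.exp_one_lt_d9.le 19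
          _ ≤ 5.4 ^ 12 := by norm_num
      exact le_of_pow_le_pow_left₀ (by norm_num) (by norm_num) h8
    have h9 := Real.pi_lt_d2
    have h10 : Real.pi * Real.exp (19 / 12) ≤ 3.15 * 5.4 :=
      mul_le_mul h9.le h7 (Real.exp_pos _).le (by norm_num)
    nlinarith
  rw [h4]
  exact mul_le_mul_of_nonneg_right h5 (by positivity)

theorem vCoreW (hP : Stmt_PosI) (hG : Stmt_GauV) (hT : Stmt_Tau) (hBox : Stmt_Box)
    (hDu : Stmt_Dual) (hCB : Stmt_CB) (hR : Stmt_Rad) (hHad : Stmt_Had) (hInv : Stmt_Inv) :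
    Stmt_CoreW := by
  intro k D hk hD x ω hc hGen
  have hk0 : (0 : ℝ) < k := by exact_mod_cast hk
  have hnJ : Fintype.card (J k D) = k * D := by
    rw [Fintype.card_prod, Fintype.card_fin, Fintype.card_fin]
  set n : ℕ := k * D with hn
  set B : ℝ := (cnt x ω : ℝ) * √((k : ℝ) ^ D) with hB
  have hB0 : 0 ≤ B := by positivity
  have key : ∀ δ : ℝ, 0 < δ →
      ((k : ℝ) / Real.exp 1) ^ n ≤ (1 + δ) ^ (n + 2) * (B * 12 ^ n) := by
    intro δ hδ
    obtain ⟨g, r, hg, hr, hu, hiso, hz⟩ := hP k D x hk hc δ hδ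
    set z : J k D → Fin D → ℝ := fun a i => r a * g.mulVec (x a) i with hzdef
    set ω' : J k D → ℝ := fun c => g.mulVec (fun i => ω (c.1, i)) c.2 with hω'
    obtain ⟨hcnt, hgen⟩ := hInv k D x ω g r hg hr
    have h1 := hG k D z ω' (hgen hGen)
    have h2 := core_dual hCB hR hk hD z δ hδ hu hiso
    have hu1 : ∀ (π : J k D → Fin k) (a : J k D),
        ∑ c, (UU z (fun a => some (π a)) a c / 2) ^ 2 ≤ 1 / 4 := by
      intro π a
      rw [Fintype.sum_prod_type, Finset.sum_eq_single (π a)]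
      · have h9 : (1 : ℝ) / 4 = (∑ i, (z a i) ^ 2) / 4 := by rw [hu a]
        rw [h9, Finset.sum_div]
        refine le_of_eq (Finset.sum_congr rfl fun i _ => ?_)
        simp only [UU, ev, if_true, one_mul]
        ring
      · intro j _ hj
        refine Finset.sum_eq_zero fun i _ => ?_
        simp [UU, ev, Ne.symm hj]
      · intro h; exact absurd (Finset.mem_univ _) h
    have h3 := core_cs (fun π : J k D → Fin k => ENNReal.ofReal ((dd z (fun a => some (π a))) ^ 2))
      (fun π => I1 (fun a c => UU z (fun a => some (π a)) a c / 2))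
      (fun π => I2 (fun a c => UU z (fun a => some (π a)) a c / 2)) _
      fun π => core_q hT hBox hDu _ (hu1 π)
    have h4 : ∑ π : J k D → Fin k, ENNReal.ofReal ((dd z (fun a => some (π a))) ^ 2) =
        ENNReal.ofReal (cc z) := by
      unfold cc
      rw [ENNReal.ofReal_sum_of_nonneg fun π _ => sq_nonneg _]
    have hVV : 0 ≤ VV z ω' := by
      unfold VV
      refine Finset.sum_nonneg (fun π _ => ?_)
      split_ifs
      · rw [mul_one]; exact abs_nonneg _
      · rw [mul_zero]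
    have hcc : 0 ≤ cc z := Finset.sum_nonneg fun π _ => sq_nonneg _
    have h5 : (cc z) ^ 2 * (Real.exp (7 / 8) * √(8 * Real.pi / 5)) ^ n ≤
        (VV z ω' * √(8 * Real.pi) ^ n) * (Real.exp 1 / 2 * ((1 + δ) * k) *
          (3 / 2 * Real.exp (-(1 / 3)) * √(3 * Real.pi))) ^ n := by
      have h6 := h3.trans (mul_le_mul' h1 h2)
      rw [h4, hnJ, ← ENNReal.ofReal_pow hcc, ← ENNReal.ofReal_mul (by positivity),
        ← ENNReal.ofReal_mul (by positivity)] at h6
      exact (ENNReal.ofReal_le_ofReal_iff (by positivity)).1 h6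
    -- Hadamard
    have h6 : VV z ω' ≤ B := by
      have h5 : ∀ π : J k D → Lb k, |dd z π| * (if Pos ω' (UU z π) then (1 : ℝ) else 0) ≤
          √((k : ℝ) ^ D) * (if Pos ω' (UU z π) then (1 : ℝ) else 0) := by
        intro π
        refine mul_le_mul_of_nonneg_right ?_ (by split_ifs <;> norm_num)
        rw [← Real.sqrt_sq_eq_abs]
        exact Real.sqrt_le_sqrt (hHad k D hk z (fun a => (hu a).le) π)
      calc VV z ω' ≤ ∑ π : J k D → Lb k,
            √((k : ℝ) ^ D) * (if Pos ω' (UU z π) then (1 : ℝ) else 0) :=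
            Finset.sum_le_sum fun π _ => h5 π
        _ = (cnt z ω' : ℝ) * √((k : ℝ) ^ D) := by
            rw [← Finset.mul_sum, Finset.sum_boole, mul_comm]
            rfl
        _ = B := by rw [hcnt, hB]
    -- conclusion
    set c0 : ℝ := Real.exp (7 / 8) * √(8 * Real.pi / 5) with hc0
    have hc0p : 0 < c0 := by
      have : 0 < √(8 * Real.pi / 5) := Real.sqrt_pos.2 (by positivity)
      positivity
    set K : ℝ := √(8 * Real.pi) * (Real.exp 1 / 2 *
      (3 / 2 * Real.exp (-(1 / 3)) * √(3 * Real.pi))) with hK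
    have hK0 : 0 ≤ K := by positivity
    have hnum : Real.exp 1 * K ≤ 12 * c0 := core_num
    have hke : 0 ≤ (k : ℝ) / Real.exp 1 := by positivity
    have h7 : (((k : ℝ) / Real.exp 1) ^ n) ^ 2 * c0 ^ n ≤
        (1 + δ) ^ 2 * (B * ((1 + δ) * k * K) ^ n) := by
      calc (((k : ℝ) / Real.exp 1) ^ n) ^ 2 * c0 ^ n ≤ ((1 + δ) * cc z) ^ 2 * c0 ^ n := by
            refine mul_le_mul_of_nonneg_right ?_ (by positivity)
            exact pow_le_pow_left₀ (by positivity) hz 2
        _ = (1 + δ) ^ 2 * ((cc z) ^ 2 * c0 ^ n) := by ring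
        _ ≤ (1 + δ) ^ 2 * ((VV z ω' * √(8 * Real.pi) ^ n) * (Real.exp 1 / 2 * ((1 + δ) * k) *
              (3 / 2 * Real.exp (-(1 / 3)) * √(3 * Real.pi))) ^ n) :=
            mul_le_mul_of_nonneg_left h5 (by positivity)
        _ = (1 + δ) ^ 2 * (VV z ω' * ((1 + δ) * k * K) ^ n) := by
            rw [mul_assoc (VV z ω'), ← mul_pow, hK]
            congr 3
            ring
        _ ≤ (1 + δ) ^ 2 * (B * ((1 + δ) * k * K) ^ n) := by
            refine mul_le_mul_of_nonneg_left ?_ (by positivity)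
            exact mul_le_mul_of_nonneg_right h6 (by positivity)
    have hX : 0 < ((k : ℝ) / Real.exp 1) ^ n * c0 ^ n := by positivity
    have h8 : ((k : ℝ) / Real.exp 1) ^ n * (((k : ℝ) / Real.exp 1) ^ n * c0 ^ n) ≤
        ((1 + δ) ^ (n + 2) * (B * 12 ^ n)) * (((k : ℝ) / Real.exp 1) ^ n * c0 ^ n) := by
      calc ((k : ℝ) / Real.exp 1) ^ n * (((k : ℝ) / Real.exp 1) ^ n * c0 ^ n)
          = (((k : ℝ) / Real.exp 1) ^ n) ^ 2 * c0 ^ n := by ring
        _ ≤ (1 + δ) ^ 2 * (B * ((1 + δ) * k * K) ^ n) := h7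
        _ = ((1 + δ) ^ (n + 2) * B) * (((k : ℝ) / Real.exp 1) ^ n * (Real.exp 1 * K) ^ n) := by
            have h9 : ((1 + δ) * k * K) ^ n =
                (1 + δ) ^ n * (((k : ℝ) / Real.exp 1) ^ n * (Real.exp 1 * K) ^ n) := by
              rw [← mul_pow, ← mul_pow]
              congr 1
              field_simp
            rw [h9]
            ring
        _ ≤ ((1 + δ) ^ (n + 2) * B) * (((k : ℝ) / Real.exp 1) ^ n * (12 * c0) ^ n) := by
            refine mul_le_mul_of_nonneg_left ?_ (by positivity)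
            refine mul_le_mul_of_nonneg_left ?_ (by positivity)
            exact pow_le_pow_left₀ (by positivity) hnum _
        _ = _ := by
            rw [mul_pow 12 c0]
            ring
    exact le_of_mul_le_mul_right h8 hX
  have htend : Filter.Tendsto (fun δ : ℝ => (1 + δ) ^ (n + 2) * (B * 12 ^ n))
      (nhdsWithin 0 (Set.Ioi 0)) (nhds (B * 12 ^ n)) := by
    have hc' : Continuous (fun δ : ℝ => (1 + δ) ^ (n + 2) * (B * 12 ^ n)) := by fun_prop
    have := hc'.tendsto 0
    simp only [add_zero, one_pow, one_mul] at this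
    exact this.mono_left nhdsWithin_le_nhds
  have hfin : ((k : ℝ) / Real.exp 1) ^ n ≤ B * 12 ^ n := by
    refine ge_of_tendsto htend ?_
    filter_upwards [self_mem_nhdsWithin] with δ hδ
    exact key δ hδ
  refine hfin.trans (le_of_eq ?_)
  rw [hB, ← pow_mul, mul_comm D k, mul_assoc]

end Pool.Agent.Tvw
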