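import Pool.Agent.Tvw.Help

/-!
# The dual integral (MP_001fdd_co, absolute constant, module Dual)
-/

set_option autoImplicit false

namespace Pool.Agent.Tvw

open scoped Classical ENNReal
open MeasureTheory

/-- the Gaussian weight -/
noncomputable def gw (s : ℝ) : ℝ := Real.exp (-(5 / 8 * s ^ 2))

theorem gw_eq : gw = fun s => Real.exp (-(5 / 8) * s ^ 2) := by
  funext s
  unfold gw
  congr 1
  ring

theorem gw_int0 : Integrable gw := by
  rw [gw_eq]
  exact integrable_exp_neg_mul_sq (by norm_num)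

theorem gw_int1 : Integrable (fun s => s * gw s) := by
  rw [gw_eq]
  exact integrable_mul_exp_neg_mul_sq (by norm_num)

theorem gw_int2 : Integrable (fun s => s ^ 2 * gw s) := by
  rw [gw_eq]
  have := integrable_rpow_mul_exp_neg_mul_sq (b := 5 / 8) (by norm_num) (s := 2) (by norm_num)
  simpa using this

theorem gw_val0 : ∫ s, gw s = √(8 * Real.pi / 5) := by
  rw [gw_eq, integral_gaussian]
  congr 1
  ring

theorem gw_val1 : ∫ s, s * gw s = 0 := by
  have h := integral_neg_eq_self (fun s : ℝ => s * gw s) volume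
  have h1 : ∀ s : ℝ, -s * gw (-s) = -(s * gw s) := by
    intro s
    unfold gw
    rw [neg_sq]
    ring
  simp only [h1, integral_neg] at h
  linarith

theorem gw_pos2 : 0 ≤ ∫ s, s ^ 2 * gw s :=
  integral_nonneg fun s => mul_nonneg (sq_nonneg s) (Real.exp_pos _).le

theorem vDual (hQ : Stmt_Quad) (hS : Stmt_Sca) : Stmt_Dual := by
  intro ι _ u τ hu hτ
  set y : ι → ℝ := fun c => ∑ b, τ b * u b c with hy
  set p : ι → ℝ := fun a => ∑ c, y c * u a c with hp
  set G0 : ℝ := (∏ a, τ a)⁻¹ * Real.exp ((∑ c, (y c) ^ 2) / 2) with hG0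
  have hG0p : 0 ≤ G0 := by
    rw [hG0]
    have : 0 ≤ ∏ a, τ a := Finset.prod_nonneg fun a _ => (hτ a).1.le
    positivity
  set v : ℝ := (∫ s, s ^ 2 * gw s) / ∫ s, gw s with hv
  have hvp : 0 ≤ v := by
    rw [hv, gw_val0]
    exact div_nonneg gw_pos2 (Real.sqrt_nonneg _)
  have hπ : 0 < √(8 * Real.pi / 5) := Real.sqrt_pos.2 (by positivity)
  have hv2 : ∫ s, s ^ 2 * gw s = v * ∫ s, gw s := by
    rw [hv, gw_val0]
    field_simp
  -- the two quadratic functions
  obtain ⟨j1, k1⟩ := hQ ι ι (fun a c => if a = c then (1 : ℝ) else 0) (fun _ => gw) (fun _ => v)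
    (fun _ => gw_int0) (fun _ => gw_int1) (fun _ => gw_int2) (fun _ => gw_val1) (fun _ => hv2)
    G0 (fun _ => 0) (G0 / 8)
  obtain ⟨j2, k2⟩ := hQ ι ι (fun c a => u a c) (fun _ => gw) (fun _ => v)
    (fun _ => gw_int0) (fun _ => gw_int1) (fun _ => gw_int2) (fun _ => gw_val1) (fun _ => hv2)
    0 (fun _ => 0) (-(G0 / 2))
  have hle := aux_ofReal _ (j1.add j2)
  simp only [Pi.add_apply] at hle
  rw [integral_add j1 j2, k1, k2, ← add_mul] at hle
  have h1 : √(8 * Real.pi / 5) ^ Fintype.card ι * G0 ≤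
      (G0 + G0 / 8 * ∑ i : ι, v * ∑ c, (if i = c then (1 : ℝ) else 0) ^ 2 +
        (0 + -(G0 / 2) * ∑ i, v * ∑ c, (u c i) ^ 2)) * ∏ _i : ι, ∫ s, gw s := by
    have h2 : ∏ _i : ι, ∫ s, gw s = √(8 * Real.pi / 5) ^ Fintype.card ι := by
      rw [Finset.prod_const, Finset.card_univ, gw_val0]
    have h3 : ∑ i : ι, v * ∑ c, (if i = c then (1 : ℝ) else 0) ^ 2 =
        v * (Fintype.card ι : ℝ) := by
      simp [mul_comm]
    have h4 : ∑ i, v * ∑ c, (u c i) ^ 2 ≤ v * ((Fintype.card ι : ℝ) * (1 / 4)) := by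
      rw [← Finset.mul_sum, Finset.sum_comm]
      refine mul_le_mul_of_nonneg_left ?_ hvp
      refine (Finset.sum_le_sum fun a _ => hu a).trans (le_of_eq ?_)
      rw [Finset.sum_const, Finset.card_univ, nsmul_eq_mul]
    rw [h2, h3]
    have h5 : G0 ≤ G0 + G0 / 8 * (v * (Fintype.card ι : ℝ)) +
        (0 + -(G0 / 2) * ∑ i, v * ∑ c, (u c i) ^ 2) := by
      nlinarith
    calc √(8 * Real.pi / 5) ^ Fintype.card ι * G0 =
        G0 * √(8 * Real.pi / 5) ^ Fintype.card ι := mul_comm _ _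
      _ ≤ _ := mul_le_mul_of_nonneg_right h5 (pow_nonneg hπ.le _)
  refine (ENNReal.ofReal_le_ofReal h1).trans (hle.trans ?_)
  unfold I2
  refine le_trans ?_ (le_of_eq (lintegral_add_right_eq_self _ y))
  refine lintegral_mono fun h => ?_
  beta_reduce
  apply ENNReal.ofReal_le_ofReal
  have e1 : ∏ i, gw (h i) = Real.exp (-(5 / 8 * ∑ c, (h c) ^ 2)) := by
    unfold gw
    rw [← Real.exp_sum, Finset.sum_neg_distrib, Finset.mul_sum]
  have e2 : ∑ c, (∑ i, h i * (if i = c then (1 : ℝ) else 0)) ^ 2 = ∑ c, (h c) ^ 2 := by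
    refine Finset.sum_congr rfl fun c _ => ?_
    congr 1
    simp
  set S : ℝ := ∑ c, (∑ i, h i * u c i) ^ 2 with hSdef
  set R : ℝ := ∑ c, (h c) ^ 2 with hR
  rw [e1, e2]
  -- the product
  have e3 : (∏ a, τ a)⁻¹ * Real.exp (∑ a, (τ a * (p a + ∑ c, h c * u a c) -
      (∑ c, h c * u a c) ^ 2 / 2)) ≤ ∏ a, Ps (∑ c, (h + y) c * u a c) := by
    rw [Real.exp_sum, ← Finset.prod_inv_distrib, ← Finset.prod_mul_distrib]
    refine Finset.prod_le_prod (fun a _ => mul_nonneg (inv_nonneg.2 (hτ a).1.le)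
      (Real.exp_pos _).le) fun a _ => ?_
    have h5 : ∑ c, (h + y) c * u a c = p a + ∑ c, h c * u a c := by
      rw [hp, ← Finset.sum_add_distrib]
      exact Finset.sum_congr rfl fun c _ => by rw [Pi.add_apply]; ring
    rw [h5]
    exact hS (τ a) (p a) _ (hτ a).1 (hτ a).2.1 (hτ a).2.2
  have e4 : ∑ a, (τ a * (p a + ∑ c, h c * u a c) - (∑ c, h c * u a c) ^ 2 / 2) =
      ∑ c, (y c) ^ 2 + ∑ c, h c * y c - S / 2 := by
    rw [Finset.sum_sub_distrib, ← Finset.sum_div]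
    congr 1
    simp only [mul_add, Finset.sum_add_distrib]
    have e5 : ∀ z : ι → ℝ, ∑ a, τ a * ∑ c, z c * u a c = ∑ c, z c * y c := by
      intro z
      simp only [hy, Finset.mul_sum]
      rw [Finset.sum_comm]
      exact Finset.sum_congr rfl fun b _ => Finset.sum_congr rfl fun c _ => by ring
    rw [e5 h]
    congr 1
    rw [hp, e5 y]
    exact Finset.sum_congr rfl fun c _ => by ring
  have e6 : ∑ c, ((h + y) c) ^ 2 = R + 2 * ∑ c, h c * y c + ∑ c, (y c) ^ 2 := by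
    rw [hR, Finset.mul_sum, ← Finset.sum_add_distrib, ← Finset.sum_add_distrib]
    exact Finset.sum_congr rfl fun c _ => by rw [Pi.add_apply]; ring
  have e7 : G0 * (Real.exp (-(5 / 8 * R)) * Real.exp (R / 8 - S / 2)) ≤
      (∏ a, Ps (∑ c, (h + y) c * u a c)) * Real.exp (-(∑ c, ((h + y) c) ^ 2) / 2) := by
    refine le_trans (le_of_eq ?_) (mul_le_mul_of_nonneg_right e3 (Real.exp_pos _).le)
    rw [e4, e6, hG0, mul_assoc, mul_assoc, ← Real.exp_add, ← Real.exp_add, ← Real.exp_add]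
    congr 2
    ring
  refine le_trans ?_ e7
  have e8 := Real.add_one_le_exp (R / 8 - S / 2)
  have e9 : (G0 + ∑ i : ι, 0 * h i + G0 / 8 * R) * Real.exp (-(5 / 8 * R)) +
      (0 + ∑ i : ι, 0 * h i + -(G0 / 2) * S) * Real.exp (-(5 / 8 * R)) =
      G0 * (Real.exp (-(5 / 8 * R)) * (R / 8 - S / 2 + 1)) := by
    simp only [zero_mul, Finset.sum_const_zero]
    ring
  rw [e9]
  exact mul_le_mul_of_nonneg_left (mul_le_mul_of_nonneg_left e8 (Real.exp_pos _).le) hG0p

end Pool.Agent.Tvw
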