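import Pool.Agent.Tvw.Help

/-!
# The Gaussian measure of the cones (MP_001fdd_co, absolute constant, module GauV)
-/

set_option autoImplicit false

namespace Pool.Agent.Tvw

open scoped Classical ENNReal
open Pool.Agent.Tvb (Pos Zero Base Good hat TP)
open Pool.Agent.Tvv
open MeasureTheory

theorem vGauV (hC : Stmt_Const) (hA : Stmt_Ae) (hI : Stmt_Int) : Stmt_GauV := by
  intro k D x ω hG
  set φ : (J k D → ℝ) → ℝ≥0∞ := fun w => ENNReal.ofReal (Real.exp (-(∑ c, (w c) ^ 2) / 8))
    with hφ
  have hm : Measurable φ := by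
    rw [hφ]
    have : Continuous fun w : J k D → ℝ => Real.exp (-(∑ c, (w c) ^ 2) / 8) := by fun_prop
    exact this.measurable.ennreal_ofReal
  have h1 := hI k D x φ hm
  have hV : 0 ≤ VV x ω := by
    unfold VV
    refine Finset.sum_nonneg (fun π _ => ?_)
    split_ifs
    · rw [mul_one]; exact abs_nonneg _
    · rw [mul_zero]
  have h0 : ∫⁻ w, φ w = ENNReal.ofReal (√(8 * Real.pi) ^ (k * D)) := by
    have := aux_gauss (ι := J k D) (1 / 8) (by norm_num)
    rw [Fintype.card_prod, Fintype.card_fin, Fintype.card_fin] at this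
    have h2 : Real.pi / (1 / 8) = 8 * Real.pi := by ring
    rw [h2] at this
    rw [← this, hφ]
    refine lintegral_congr fun w => ?_
    congr 2
    ring
  have h2 : ∫⁻ ω', φ ω' * ENNReal.ofReal (VV x ω') =
      ENNReal.ofReal (VV x ω * √(8 * Real.pi) ^ (k * D)) := by
    have e1 : ∫⁻ ω', φ ω' * ENNReal.ofReal (VV x ω') =
        ∫⁻ ω', φ ω' * ENNReal.ofReal (VV x ω) := by
      refine lintegral_congr_ae ?_
      filter_upwards [hA k D x ω hG] with ω' hω'
      rw [hC k D x ω ω' hω']
    rw [e1, lintegral_mul_const _ hm, h0, ← ENNReal.ofReal_mul (by positivity), mul_comm]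
  rw [← h2, h1]
  have hinj : Function.Injective (fun (π : J k D → Fin k) (a : J k D) => (some (π a) : Lb k)) := by
    intro π π' h
    funext a
    exact Option.some_injective _ (congrFun h a)
  have h3 : ∀ π : J k D → Lb k, ENNReal.ofReal ((dd x π) ^ 2) *
      I1 (fun a c => UU x π a c / 2) =
      ENNReal.ofReal ((dd x π) ^ 2) *
        ∫⁻ t in {t : J k D → ℝ | ∀ a, 0 < t a}, φ (∑ a, t a • UU x π a) := by
    intro π
    congr 1
    unfold I1
    refine lintegral_congr fun t => ?_
    rw [hφ]
    beta_reduce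
    congr 2
    have h4 : ∑ c, (∑ a, t a * (UU x π a c / 2)) ^ 2 =
        (∑ c, (∑ a, t a * UU x π a c) ^ 2) / 4 := by
      rw [Finset.sum_div]
      refine Finset.sum_congr rfl fun c _ => ?_
      have h5 : ∑ a, t a * (UU x π a c / 2) = (∑ a, t a * UU x π a c) / 2 := by
        rw [Finset.sum_div]
        exact Finset.sum_congr rfl fun a _ => by ring
      rw [h5]
      ring
    rw [h4]
    simp only [Finset.sum_apply, Pi.smul_apply, smul_eq_mul]
    ring
  rw [Finset.sum_congr rfl fun π _ => h3 (fun a => some (π a))]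
  rw [← Finset.sum_image (s := Finset.univ)
    (g := fun (π : J k D → Fin k) (a : J k D) => (some (π a) : Lb k))
    (f := fun π : J k D → Lb k => ENNReal.ofReal ((dd x π) ^ 2) *
      ∫⁻ t in {t : J k D → ℝ | ∀ a, 0 < t a}, φ (∑ a, t a • UU x π a))
    (fun π _ π' _ h => hinj h)]
  exact Finset.sum_le_sum_of_subset (Finset.subset_univ _)

end Pool.Agent.Tvw
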