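import Pool.Agent.Tvw.Stmts

/-!
# The scalar inequality (MP_001fdd_co, absolute constant, module Sca)
-/

set_option autoImplicit false

namespace Pool.Agent.Tvw

theorem sca_neg (u : ℝ) (hu : u ≤ 0) : Real.exp u ≤ 1 + u + u ^ 2 / 2 := by
  have h := Real.quadratic_le_exp_of_nonneg (x := -u) (by linarith)
  have h1 : 0 < 1 + -u + (-u) ^ 2 / 2 := by nlinarith [sq_nonneg u]
  have h2 : Real.exp u = (Real.exp (-u))⁻¹ := by rw [Real.exp_neg, inv_inv]
  rw [h2, inv_le_comm₀ (Real.exp_pos _) (by nlinarith [sq_nonneg (u + 1)])]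
  refine le_trans ?_ h
  rw [inv_le_iff_one_le_mul₀ (by nlinarith [sq_nonneg (u + 1)])]
  nlinarith [sq_nonneg (u ^ 2)]

theorem sca_pos (u : ℝ) (hu : 0 ≤ u) : Real.exp (u - u ^ 2 / 2) ≤ 1 + u := by
  have h := Real.le_log_one_add_of_nonneg hu
  rw [← Real.le_log_iff_exp_le (by linarith)]
  refine le_trans ?_ h
  rw [le_div_iff₀ (by linarith)]
  nlinarith [pow_nonneg hu 3]

/-- the logarithm is at most the hyperbolic sine of itself -/
theorem sca_log (y : ℝ) (hy : 1 ≤ y) : Real.log y ≤ (y - y⁻¹) / 2 := by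
  have h := Real.self_le_sinh_iff.2 (Real.log_nonneg hy)
  rw [Real.sinh_eq, Real.exp_log (by linarith), Real.exp_neg, Real.exp_log (by linarith)] at h
  exact h

/-- case of a small coordinate -/
theorem sca_one (p q : ℝ) (hp : p ≤ 1) :
    Real.exp (q - (q - p) ^ 2 / 2) ≤ Real.exp 1 / 2 * (1 + q ^ 2) := by
  have h1 : Real.exp 1 / 2 * (1 + q ^ 2) =
      Real.exp 1 * (1 + (q - 1) + (q - 1) ^ 2 / 2) := by ring
  rw [h1]
  rcases le_or_gt q 1 with h | h
  · calc Real.exp (q - (q - p) ^ 2 / 2) ≤ Real.exp (1 + (q - 1)) := by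
          apply Real.exp_le_exp.2
          nlinarith [sq_nonneg (q - p)]
      _ = Real.exp 1 * Real.exp (q - 1) := Real.exp_add _ _
      _ ≤ _ := mul_le_mul_of_nonneg_left (sca_neg _ (by linarith)) (Real.exp_pos _).le
  · calc Real.exp (q - (q - p) ^ 2 / 2) ≤ Real.exp (1 + ((q - 1) - (q - 1) ^ 2 / 2)) := by
          apply Real.exp_le_exp.2
          nlinarith
      _ = Real.exp 1 * Real.exp ((q - 1) - (q - 1) ^ 2 / 2) := Real.exp_add _ _
      _ ≤ Real.exp 1 * (1 + (q - 1)) :=
          mul_le_mul_of_nonneg_left (sca_pos _ (by linarith)) (Real.exp_pos _).le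
      _ ≤ _ := mul_le_mul_of_nonneg_left (by nlinarith [sq_nonneg (q - 1)]) (Real.exp_pos _).le

/-- case of a large coordinate -/
theorem sca_two (p q : ℝ) (hp : 1 ≤ p) :
    p * Real.exp ((q - p) / p - (q - p) ^ 2 / 2) ≤ (1 + q ^ 2) / 2 := by
  have hp0 : 0 < p := by linarith
  rcases le_or_gt p q with h | h
  · have h1 : (q - p) / p - (q - p) ^ 2 / 2 ≤ (q - p) / p - ((q - p) / p) ^ 2 / 2 := by
      have : ((q - p) / p) ^ 2 ≤ (q - p) ^ 2 := by
        rw [div_pow]
        exact div_le_self (sq_nonneg _) (by nlinarith)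
      linarith
    have h2 := sca_pos ((q - p) / p) (div_nonneg (by linarith) hp0.le)
    calc p * Real.exp ((q - p) / p - (q - p) ^ 2 / 2)
        ≤ p * (1 + (q - p) / p) :=
          mul_le_mul_of_nonneg_left ((Real.exp_le_exp.2 h1).trans h2) hp0.le
      _ = q := by field_simp; ring
      _ ≤ (1 + q ^ 2) / 2 := by nlinarith [sq_nonneg (q - 1)]
  · rcases le_or_gt 1 q with h1 | h1
    · have hq0 : 0 < q := by linarith
      have h2 := sca_log (p / q) ((one_le_div hq0).2 h.le)
      have h3 : Real.log p - Real.log q ≤ (p - q) / p + (p - q) ^ 2 / 2 := by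
        rw [← Real.log_div hp0.ne' hq0.ne']
        refine h2.trans ?_
        rw [inv_div]
        have h4 : (p / q - q / p) / 2 = (p - q) / p + (p - q) ^ 2 / (2 * (p * q)) := by
          field_simp
          ring
        rw [h4]
        have h5 : (p - q) ^ 2 / (2 * (p * q)) ≤ (p - q) ^ 2 / 2 :=
          div_le_div_of_nonneg_left (sq_nonneg _) (by norm_num) (by nlinarith)
        linarith
      have h6 : p * Real.exp ((q - p) / p - (q - p) ^ 2 / 2) =
          Real.exp (Real.log p + ((q - p) / p - (q - p) ^ 2 / 2)) := by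
        rw [Real.exp_add, Real.exp_log hp0]
      rw [h6]
      calc Real.exp (Real.log p + ((q - p) / p - (q - p) ^ 2 / 2)) ≤ Real.exp (Real.log q) := by
            apply Real.exp_le_exp.2
            have h7 : (q - p) / p = -((p - q) / p) := by rw [← neg_div, neg_sub]
            rw [h7]
            nlinarith
        _ = q := Real.exp_log hq0
        _ ≤ (1 + q ^ 2) / 2 := by nlinarith [sq_nonneg (q - 1)]
    · have h2 := sca_log p hp
      have h3 : Real.log p ≤ (q - 1) - (q - p) / p + (q - p) ^ 2 / 2 - (q - 1) ^ 2 / 2 := by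
        refine h2.trans ?_
        have h4 : (q - 1) - (q - p) / p + (q - p) ^ 2 / 2 - (q - 1) ^ 2 / 2 - (p - p⁻¹) / 2 =
            (p - 1) * ((p - 1) ^ 2 + 2 * (1 - q) * (p - 1)) / (2 * p) := by
          field_simp
          ring
        have h5 : 0 ≤ (p - 1) * ((p - 1) ^ 2 + 2 * (1 - q) * (p - 1)) / (2 * p) := by
          apply div_nonneg _ (by linarith)
          apply mul_nonneg (by linarith)
          have : 0 ≤ 2 * (1 - q) * (p - 1) := mul_nonneg (by linarith) (by linarith)
          nlinarith [sq_nonneg (p - 1)]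
        linarith
      have h6 : p * Real.exp ((q - p) / p - (q - p) ^ 2 / 2) =
          Real.exp (Real.log p + ((q - p) / p - (q - p) ^ 2 / 2)) := by
        rw [Real.exp_add, Real.exp_log hp0]
      rw [h6]
      calc Real.exp (Real.log p + ((q - p) / p - (q - p) ^ 2 / 2)) ≤ Real.exp (q - 1) := by
            apply Real.exp_le_exp.2
            nlinarith [sq_nonneg (q - 1)]
        _ ≤ 1 + (q - 1) + (q - 1) ^ 2 / 2 := sca_neg _ (by linarith)
        _ = (1 + q ^ 2) / 2 := by ring

theorem vSca : Stmt_Sca := by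
  intro τ p δ h0 h1 h
  unfold Ps
  rcases h with ⟨hτ, hp⟩ | h
  · subst hτ
    have := sca_one p (p + δ) hp
    rw [inv_one, one_mul, one_mul]
    have h3 : p + δ - p = δ := by ring
    rw [h3] at this
    exact this
  · have hτ : τ = p⁻¹ := eq_inv_of_mul_eq_one_left h
    have hp0 : 0 < p := by
      by_contra hc
      push Not at hc
      nlinarith [mul_nonneg h0.le (neg_nonneg.2 hc)]
    have hp : 1 ≤ p := by
      by_contra hc
      push Not at hc
      nlinarith
    subst hτ
    have := sca_two p (p + δ) hp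
    have h3 : p + δ - p = δ := by ring
    rw [h3] at this
    have h4 : p⁻¹ * (p + δ) - δ ^ 2 / 2 = 1 + (δ / p - δ ^ 2 / 2) := by
      field_simp
      ring
    rw [inv_inv, h4, Real.exp_add]
    calc p * (Real.exp 1 * Real.exp (δ / p - δ ^ 2 / 2))
        = Real.exp 1 * (p * Real.exp (δ / p - δ ^ 2 / 2)) := by ring
      _ ≤ Real.exp 1 * ((1 + (p + δ) ^ 2) / 2) :=
          mul_le_mul_of_nonneg_left this (Real.exp_pos _).le
      _ = _ := by ring

end Pool.Agent.Tvw
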