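import Pool.Agent.Tvw.CB
import Pool.Agent.Tvw.Sca

/-!
# The position (MP_001fdd_co, absolute constant, module PosI)
-/

set_option autoImplicit false

namespace Pool.Agent.Tvw

open scoped Classical ENNReal
open Pool.Agent.Tvb (Pos Zero Base Good hat TP)
open Pool.Agent.Tvv
open MeasureTheory

/-- the matrix of the weights `t` -/
noncomputable def MM {k D : ℕ} (x : J k D → Fin D → ℝ) (t : J k D → ℝ) :
    Matrix (Fin D) (Fin D) ℝ :=
  Matrix.of fun i i' : Fin D => ∑ a, t a * (x a i * x a i')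

theorem pi_low {k D : ℕ} (x : J k D → Fin D → ℝ) (t : J k D → ℝ) (ht : ∀ a, 0 ≤ t a) :
    cc x * ∏ a, t a ≤ (MM x t).det ^ k := by
  have h1 := cb_le x (fun _ a => t a) fun _ a => ht a
  have h2 : (Matrix.of fun i j : J k D =>
      ∑ s : Fin k × J k D, t s.2 * (cw x s i * cw x s j)) =
      Matrix.kroneckerMap (fun x1 x2 => x1 * x2) (1 : Matrix (Fin k) (Fin k) ℝ) (MM x t) := by
    ext q q'
    simp only [Matrix.of_apply, Matrix.kroneckerMap_apply, MM]
    rw [Fintype.sum_prod_type, Finset.sum_eq_single q.1]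
    · by_cases h : q.1 = q'.1
      · rw [← h, Matrix.one_apply_eq, one_mul]
        refine Finset.sum_congr rfl fun a _ => ?_
        simp [cw, ev, ← h]
      · rw [Matrix.one_apply_ne h, zero_mul]
        refine Finset.sum_eq_zero fun a _ => ?_
        simp [cw, ev, h]
    · intro j _ hj
      refine Finset.sum_eq_zero fun a _ => ?_
      simp [cw, ev, hj]
    · intro h; exact absurd (Finset.mem_univ _) h
  have h3 : Matrix.det (Matrix.of fun i j : J k D =>
      ∑ s : Fin k × J k D, t s.2 * (cw x s i * cw x s j)) = (MM x t).det ^ k := by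
    rw [h2, Matrix.det_kronecker]
    simp
  rw [h3] at h1
  refine le_trans (le_of_eq ?_) h1
  unfold cc
  rw [Finset.sum_mul]

/-- a weight which is almost optimal -/
theorem pi_t (hC : Stmt_Cap) (k D : ℕ) (x : J k D → Fin D → ℝ) (hx : 0 < cc x)
    (η : ℝ) (hη : 0 < η) : ∃ t : J k D → ℝ, (∀ a, 0 < t a) ∧
      (MM x t).det ^ k ≤ (1 + η) ^ 2 * Real.exp 1 ^ (k * D) * cc x * ∏ a, t a ∧
      ∀ t' : J k D → ℝ, (∀ a, 0 < t' a) →
        (MM x t).det ^ k * ∏ a, t' a ≤ (1 + η) * ((MM x t').det ^ k * ∏ a, t a) := by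
  let S : Set ℝ := {v | ∃ t : J k D → ℝ, (∀ a, 0 < t a) ∧ v = (MM x t).det ^ k / ∏ a, t a}
  have hT : ∀ t : J k D → ℝ, (∀ a, 0 < t a) → 0 < ∏ a, t a := fun t ht =>
    Finset.prod_pos fun a _ => ht a
  have hSlow : ∀ v ∈ S, cc x ≤ v := by
    rintro v ⟨t, ht, rfl⟩
    rw [le_div_iff₀ (hT t ht)]
    exact pi_low x t fun a => (ht a).le
  have hSne : S.Nonempty := ⟨_, fun _ => 1, fun _ => one_pos, rfl⟩
  have hSb : BddBelow S := ⟨cc x, hSlow⟩
  have hI : cc x ≤ sInf S := le_csInf hSne hSlow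
  have hI0 : 0 < sInf S := lt_of_lt_of_le hx hI
  obtain ⟨v, ⟨t, ht, rfl⟩, hv⟩ := exists_lt_of_csInf_lt hSne
    (show sInf S < (1 + η) * sInf S by nlinarith)
  refine ⟨t, ht, ?_, ?_⟩
  · obtain ⟨t1, ht1, hcap⟩ := hC k D x hx η hη
    have h1 : sInf S ≤ (MM x t1).det ^ k / ∏ a, t1 a := csInf_le hSb ⟨t1, ht1, rfl⟩
    have h2 : (MM x t1).det ^ k / ∏ a, t1 a ≤ (1 + η) * Real.exp 1 ^ (k * D) * cc x := by
      rw [div_le_iff₀ (hT t1 ht1)]
      exact hcap
    have h3 : (MM x t).det ^ k / ∏ a, t a ≤ (1 + η) ^ 2 * Real.exp 1 ^ (k * D) * cc x := by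
      calc (MM x t).det ^ k / ∏ a, t a ≤ (1 + η) * sInf S := hv.le
        _ ≤ (1 + η) * ((1 + η) * Real.exp 1 ^ (k * D) * cc x) :=
            mul_le_mul_of_nonneg_left (h1.trans h2) (by linarith)
        _ = _ := by ring
    rw [div_le_iff₀ (hT t ht)] at h3
    exact h3
  · intro t' ht'
    have h1 : sInf S ≤ (MM x t').det ^ k / ∏ a, t' a := csInf_le hSb ⟨t', ht', rfl⟩
    have h2 : (MM x t).det ^ k / ∏ a, t a ≤ (1 + η) * ((MM x t').det ^ k / ∏ a, t' a) :=
      hv.le.trans (mul_le_mul_of_nonneg_left h1 (by linarith))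
    rw [← mul_div_assoc, div_le_div_iff₀ (hT t ht) (hT t' ht')] at h2
    linarith

/-- change of one weight -/
theorem pi_upd {k D : ℕ} (x : J k D → Fin D → ℝ) (t : J k D → ℝ) (b : J k D) (θ : ℝ)
    (g : Matrix (Fin D) (Fin D) ℝ) (hM : (MM x t).det ≠ 0)
    (hg : (MM x t)⁻¹ = g.transpose * g) :
    (MM x (Function.update t b ((1 + θ) * t b))).det =
      (MM x t).det * (1 + θ * (t b * ∑ i, (g.mulVec (x b) i) ^ 2)) := by
  have h1 : MM x (Function.update t b ((1 + θ) * t b)) =
      MM x t + Matrix.replicateCol Unit (fun i => θ * t b * x b i) *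
        Matrix.replicateRow Unit (x b) := by
    ext i i'
    rw [Matrix.add_apply, Matrix.mul_apply]
    simp only [MM, Matrix.of_apply, Finset.univ_unique, Finset.sum_singleton,
      Matrix.replicateCol_apply, Matrix.replicateRow_apply]
    rw [← Finset.add_sum_erase Finset.univ _ (Finset.mem_univ b),
      ← Finset.add_sum_erase Finset.univ (fun a => t a * (x a i * x a i')) (Finset.mem_univ b),
      Function.update_self]
    have h2 : ∀ a ∈ Finset.univ.erase b, Function.update t b ((1 + θ) * t b) a *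
        (x a i * x a i') = t a * (x a i * x a i') := by
      intro a ha
      rw [Function.update_of_ne (Finset.mem_erase.1 ha).1]
    rw [Finset.sum_congr rfl h2]
    ring
  rw [h1, Matrix.det_add_replicateCol_mul_replicateRow (isUnit_iff_ne_zero.2 hM), hg]
  congr 1
  rw [Matrix.det_unique, Matrix.add_apply, Matrix.one_apply_eq]
  congr 1
  simp only [Matrix.mul_apply, Matrix.replicateRow_apply, Matrix.replicateCol_apply,
    Matrix.transpose_apply, Matrix.mulVec, dotProduct]
  calc ∑ j, (∑ i, x b i * ∑ l, g l i * g l j) * (θ * t b * x b j)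
      = ∑ j, ∑ i, ∑ l, (θ * t b) * ((g l i * x b i) * (g l j * x b j)) := by
        refine Finset.sum_congr rfl fun j _ => ?_
        rw [Finset.sum_mul]
        refine Finset.sum_congr rfl fun i _ => ?_
        rw [Finset.mul_sum, Finset.sum_mul]
        exact Finset.sum_congr rfl fun l _ => by ring
    _ = ∑ l, ∑ i, ∑ j, (θ * t b) * ((g l i * x b i) * (g l j * x b j)) := by
        rw [Finset.sum_comm]
        rw [Finset.sum_congr rfl fun i _ => Finset.sum_comm]
        rw [Finset.sum_comm]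
    _ = θ * (t b * ∑ l, (∑ i, g l i * x b i) ^ 2) := by
        rw [Finset.mul_sum, Finset.mul_sum]
        refine Finset.sum_congr rfl fun l _ => ?_
        rw [sq, Finset.sum_mul_sum, Finset.mul_sum, Finset.mul_sum]
        refine Finset.sum_congr rfl fun i _ => ?_
        rw [Finset.mul_sum, Finset.mul_sum]
        exact Finset.sum_congr rfl fun j _ => by ring

/-- the lower bound for the leverages -/
theorem pi_lev (k : ℕ) (θ q : ℝ) (hθ : 0 < θ) (hq : 0 ≤ q)
    (h : 1 + θ ≤ (1 + θ ^ 2 / 2) * (1 + θ * q) ^ k) : 1 - θ ≤ k * q := by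
  have h1 : Real.exp (θ - θ ^ 2 / 2) ≤ Real.exp (θ ^ 2 / 2 + k * (θ * q)) := by
    calc Real.exp (θ - θ ^ 2 / 2) ≤ 1 + θ := sca_pos θ hθ.le
      _ ≤ (1 + θ ^ 2 / 2) * (1 + θ * q) ^ k := h
      _ ≤ Real.exp (θ ^ 2 / 2) * Real.exp (k * (θ * q)) := by
          refine mul_le_mul ?_ ?_ (by positivity) (Real.exp_pos _).le
          · have := Real.add_one_le_exp (θ ^ 2 / 2)
            linarith
          · rw [Real.exp_nat_mul]
            refine pow_le_pow_left₀ (by positivity) ?_ _
            have := Real.add_one_le_exp (θ * q)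
            linarith
      _ = _ := by rw [← Real.exp_add]
  have h2 := Real.exp_le_exp.1 h1
  have h3 : θ * (1 - θ) ≤ θ * (k * q) := by nlinarith
  exact le_of_mul_le_mul_left h3 hθ

/-- W1: the position. -/
theorem vPosI (hC : Stmt_Cap) : Stmt_PosI := by
  intro k D x hk hx δ hδ
  have hk0 : (0 : ℝ) < k := by exact_mod_cast hk
  set θ : ℝ := δ / (1 + δ) with hθ
  have hθ0 : 0 < θ := by positivity
  have hθ1 : θ < 1 := by
    rw [hθ, div_lt_one (by linarith)]
    linarith
  have hθδ : 1 / (1 - θ) = 1 + δ := by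
    rw [hθ]
    have : (1 : ℝ) + δ ≠ 0 := by linarith
    field_simp
    ring
  have hθ2 : (1 + θ ^ 2 / 2) ^ 2 ≤ 1 + δ := by
    have h1 : θ * (1 + δ) = δ := by
      rw [hθ]
      field_simp
    have h2 : θ ^ 2 * 2 ≤ δ := by nlinarith [sq_nonneg (θ - 1), sq_nonneg θ, mul_pos hθ0 hδ]
    have h3 : θ ^ 2 ≤ 1 := by nlinarith
    nlinarith [sq_nonneg θ]
  obtain ⟨t, ht, hcap', hopt⟩ := pi_t hC k D x hx (θ ^ 2 / 2) (by positivity)
  have hTpos : (0 : ℝ) < ∏ a, t a := Finset.prod_pos fun a _ => ht a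
  have hcap : (MM x t).det ^ k ≤ (1 + δ) * Real.exp 1 ^ (k * D) * cc x * ∏ a, t a := by
    refine hcap'.trans ?_
    have h1 : 0 ≤ Real.exp 1 ^ (k * D) * cc x * ∏ a, t a := by positivity
    nlinarith
  set M : Matrix (Fin D) (Fin D) ℝ := MM x t with hM
  have hquad : ∀ w : Fin D → ℝ, w ⬝ᵥ M.mulVec w = ∑ a, t a * (∑ i, x a i * w i) ^ 2 := by
    intro w
    simp only [dotProduct, Matrix.mulVec, hM, MM, Matrix.of_apply]
    calc ∑ i, w i * ∑ i', (∑ a, t a * (x a i * x a i')) * w i'
        = ∑ i, ∑ i', ∑ a, t a * (x a i * w i) * (x a i' * w i') := by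
          refine Finset.sum_congr rfl fun i _ => ?_
          rw [Finset.mul_sum]
          refine Finset.sum_congr rfl fun i' _ => ?_
          rw [Finset.sum_mul, Finset.mul_sum]
          refine Finset.sum_congr rfl fun a _ => by ring
      _ = ∑ a, ∑ i, ∑ i', t a * (x a i * w i) * (x a i' * w i') := by
          rw [Finset.sum_comm (s := (Finset.univ : Finset (J k D)))]
          refine Finset.sum_congr rfl fun i _ => ?_
          rw [Finset.sum_comm]
      _ = ∑ a, t a * (∑ i, x a i * w i) ^ 2 := by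
          refine Finset.sum_congr rfl fun a _ => ?_
          rw [sq, Finset.sum_mul_sum, Finset.mul_sum]
          refine Finset.sum_congr rfl fun i _ => ?_
          rw [Finset.mul_sum]
          refine Finset.sum_congr rfl fun i' _ => by ring
  have hMpos : M.PosDef := by
    refine Matrix.PosDef.of_dotProduct_mulVec_pos ?_ ?_
    · ext i i'
      simp only [hM, MM, Matrix.conjTranspose_apply, Matrix.of_apply, star_trivial]
      refine Finset.sum_congr rfl fun a _ => by ring
    · intro w hw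
      rw [star_trivial, hquad]
      have hnn : ∀ a ∈ (Finset.univ : Finset (J k D)), 0 ≤ t a * (∑ i, x a i * w i) ^ 2 :=
        fun a _ => mul_nonneg (ht a).le (sq_nonneg _)
      rcases (Finset.sum_nonneg hnn).lt_or_eq with h | h
      · exact h
      · exfalso
        apply hw
        apply pst_span hk x hx
        intro a
        have h2 := (Finset.sum_eq_zero_iff_of_nonneg hnn).mp h.symm a (Finset.mem_univ a)
        rcases mul_eq_zero.mp h2 with h3 | h3
        · exact absurd h3 (ht a).ne'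
        · exact pow_eq_zero_iff (two_ne_zero) |>.mp h3
  obtain ⟨g, hg⟩ := pst_sqrt M⁻¹ hMpos.inv.posSemidef
  have hdetM : 0 < M.det := hMpos.det_pos
  have hdetg2 : g.det ^ 2 = (M.det)⁻¹ := by
    have := congrArg Matrix.det hg
    rw [Matrix.det_mul, Matrix.det_transpose, Matrix.det_nonsing_inv, Ring.inverse_eq_inv'] at this
    rw [sq, this]
  have hdetg : g.det ≠ 0 := by
    intro h0
    rw [h0] at hdetg2
    have : (0 : ℝ) < (M.det)⁻¹ := inv_pos.mpr hdetM
    rw [← hdetg2] at this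
    norm_num at this
  -- the squared norms
  set q : J k D → ℝ := fun a => ∑ i, (g.mulVec (x a) i) ^ 2 with hq
  have hqpos : ∀ a, 0 < q a := by
    intro a
    have hne : g.mulVec (x a) ≠ 0 := by
      intro h0
      exact pst_ne x hx a (by
        by_contra hne
        exact hdetg (Matrix.exists_mulVec_eq_zero_iff.mp ⟨_, hne, h0⟩))
    obtain ⟨i, hi⟩ := Function.ne_iff.mp hne
    refine Finset.sum_pos' (fun i _ => sq_nonneg _) ⟨i, Finset.mem_univ i, ?_⟩
    have : g.mulVec (x a) i ≠ 0 := hi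
    positivity
  -- the leverages
  have hlev : ∀ b, 1 - θ ≤ k * (t b * q b) := by
    intro b
    apply pi_lev k θ (t b * q b) hθ0 (mul_pos (ht b) (hqpos b)).le
    have h1 := hopt (Function.update t b ((1 + θ) * t b)) fun a => by
      by_cases h : a = b
      · subst h
        rw [Function.update_self]
        exact mul_pos (by linarith) (ht a)
      · rw [Function.update_of_ne h]
        exact ht a
    have h2 : ∏ a, Function.update t b ((1 + θ) * t b) a = (1 + θ) * ∏ a, t a := by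
      rw [← Finset.mul_prod_erase Finset.univ _ (Finset.mem_univ b),
        ← Finset.mul_prod_erase Finset.univ t (Finset.mem_univ b), Function.update_self]
      have h3 : ∀ a ∈ Finset.univ.erase b, Function.update t b ((1 + θ) * t b) a = t a := by
        intro a ha
        rw [Function.update_of_ne (Finset.mem_erase.1 ha).1]
      rw [Finset.prod_congr rfl h3]
      ring
    rw [h2, pi_upd x t b θ g hdetM.ne' hg, mul_pow] at h1
    have hMk : (0 : ℝ) < M.det ^ k := pow_pos hdetM k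
    have h3 : (M.det ^ k * ∏ a, t a) * (1 + θ) ≤
        (M.det ^ k * ∏ a, t a) * ((1 + θ ^ 2 / 2) * (1 + θ * (t b * q b)) ^ k) := by
      calc (M.det ^ k * ∏ a, t a) * (1 + θ) = M.det ^ k * ((1 + θ) * ∏ a, t a) := by ring
        _ ≤ _ := h1
        _ = _ := by ring
    exact le_of_mul_le_mul_left h3 (mul_pos hMk hTpos)
  set r : J k D → ℝ := fun a => 1 / √(q a) with hr
  have hrpos : ∀ a, 0 < r a := fun a => one_div_pos.mpr (Real.sqrt_pos.mpr (hqpos a))
  have hr2 : ∀ a, r a ^ 2 = (q a)⁻¹ := by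
    intro a
    rw [hr]
    simp only
    rw [div_pow, one_pow, Real.sq_sqrt (hqpos a).le, one_div]
  refine ⟨g, r, hdetg, hrpos, ?_, ?_, ?_⟩
  · intro a
    calc ∑ i, (r a * g.mulVec (x a) i) ^ 2 = r a ^ 2 * q a := by
          rw [hq, Finset.mul_sum]
          refine Finset.sum_congr rfl fun i _ => by ring
      _ = 1 := by rw [hr2, inv_mul_cancel₀ (hqpos a).ne']
  · -- isotropy
    intro y
    have hU : IsUnit M.det := isUnit_iff_ne_zero.2 hdetM.ne'
    have h1 : (g * M) * g.transpose = 1 := by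
      rw [mul_eq_one_comm, ← Matrix.mul_assoc, ← hg, Matrix.nonsing_inv_mul _ hU]
    have h2 : ∑ a, t a * (∑ i, y i * g.mulVec (x a) i) ^ 2 = ∑ i, (y i) ^ 2 := by
      have h3 : ∀ a, ∑ i, y i * g.mulVec (x a) i = ∑ i, x a i * (g.transpose.mulVec y) i := by
        intro a
        have := Matrix.dotProduct_mulVec y g (x a)
        rw [dotProduct, dotProduct] at this
        rw [this]
        refine Finset.sum_congr rfl fun i _ => ?_
        rw [Matrix.mulVec_transpose, mul_comm]
      simp only [h3]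
      rw [← hquad]
      have h4 : (g.transpose.mulVec y) ⬝ᵥ M.mulVec (g.transpose.mulVec y) =
          y ⬝ᵥ ((g * M) * g.transpose).mulVec y := by
        rw [Matrix.mul_assoc, ← Matrix.mulVec_mulVec, ← Matrix.mulVec_mulVec,
          Matrix.dotProduct_mulVec y g, Matrix.mulVec_transpose]
      rw [h4, h1, Matrix.one_mulVec, dotProduct]
      exact Finset.sum_congr rfl fun i _ => by ring
    have h5 : ∀ a, (∑ i, y i * (r a * g.mulVec (x a) i)) ^ 2 ≤
        (1 + δ) * k * (t a * (∑ i, y i * g.mulVec (x a) i) ^ 2) := by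
      intro a
      have h6 : ∑ i, y i * (r a * g.mulVec (x a) i) = r a * ∑ i, y i * g.mulVec (x a) i := by
        rw [Finset.mul_sum]
        exact Finset.sum_congr rfl fun i _ => by ring
      rw [h6, mul_pow, hr2]
      have h7 : (q a)⁻¹ ≤ (1 + δ) * k * t a := by
        rw [inv_le_iff_one_le_mul₀ (hqpos a), ← hθδ]
        have h8 := hlev a
        have h9 : 1 / (1 - θ) * k * t a * q a = (k * (t a * q a)) / (1 - θ) := by ring
        rw [h9, le_div_iff₀ (by linarith)]
        linarith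
      calc (q a)⁻¹ * (∑ i, y i * g.mulVec (x a) i) ^ 2
          ≤ ((1 + δ) * k * t a) * (∑ i, y i * g.mulVec (x a) i) ^ 2 :=
            mul_le_mul_of_nonneg_right h7 (sq_nonneg _)
        _ = _ := by ring
    calc ∑ a, (∑ i, y i * (r a * g.mulVec (x a) i)) ^ 2
        ≤ ∑ a, (1 + δ) * k * (t a * (∑ i, y i * g.mulVec (x a) i) ^ 2) :=
          Finset.sum_le_sum fun a _ => h5 a
      _ = (1 + δ) * k * ∑ i, (y i) ^ 2 := by rw [← Finset.mul_sum, h2]
  · rw [pst_cc, hdetg2]
    -- the trace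
    have htr : ∑ a, t a * q a = D := by
      have h1 : ∑ a, t a * q a = Matrix.trace (M⁻¹ * M) := by
        rw [hg, hq, hM]
        exact pst_trace x t g
      rw [h1, Matrix.nonsing_inv_mul _ (by rw [isUnit_iff_ne_zero]; exact hdetM.ne'),
        Matrix.trace_one, Fintype.card_fin]
    have ham := pst_amgm (fun a => t a * q a) fun a => (mul_pos (ht a) (hqpos a)).le
    rw [htr, Fintype.card_prod, Fintype.card_fin, Fintype.card_fin] at ham
    have hE : (0 : ℝ) < Real.exp 1 ^ (k * D) := pow_pos (Real.exp_pos 1) _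
    have hP : (0 : ℝ) < ∏ a, (t a * q a) := Finset.prod_pos fun a _ => mul_pos (ht a) (hqpos a)
    have h1 : (k : ℝ) ^ (k * D) * ∏ a, (t a * q a) ≤ 1 := by
      rcases Nat.eq_zero_or_pos D with h0 | hD
      · subst h0
        simp
      · have hD0 : (0 : ℝ) < D := by exact_mod_cast hD
        calc (k : ℝ) ^ (k * D) * ∏ a, (t a * q a)
            ≤ (k : ℝ) ^ (k * D) * ((D : ℝ) / ((k * D : ℕ) : ℝ)) ^ (k * D) :=
              mul_le_mul_of_nonneg_left ham (pow_nonneg hk0.le _)
          _ = 1 := by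
              rw [← mul_pow]
              push_cast
              rw [show (k : ℝ) * ((D : ℝ) / ((k : ℝ) * D)) = 1 by field_simp, one_pow]
    have hprod : (∏ a, r a) ^ 2 = (∏ a, q a)⁻¹ := by
      rw [← Finset.prod_pow, ← Finset.prod_inv_distrib]
      exact Finset.prod_congr rfl fun a _ => hr2 a
    have hQ : (0 : ℝ) < ∏ a, q a := Finset.prod_pos fun a _ => hqpos a
    have hT : (0 : ℝ) < ∏ a, t a := Finset.prod_pos fun a _ => ht a
    rw [hprod, inv_pow, div_pow, div_le_iff₀ hE]
    rw [Finset.prod_mul_distrib] at h1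
    have hMk : (0 : ℝ) < M.det ^ k := pow_pos hdetM k
    have h2 : (k : ℝ) ^ (k * D) ≤ (∏ a, q a)⁻¹ * (∏ a, t a)⁻¹ := by
      rw [← mul_inv, ← one_div, le_div_iff₀ (mul_pos hQ hT)]
      calc (k : ℝ) ^ (k * D) * ((∏ a, q a) * ∏ a, t a)
          = (k : ℝ) ^ (k * D) * ((∏ a, t a) * ∏ a, q a) := by ring
        _ ≤ 1 := h1
    refine h2.trans ?_
    have h3 : (∏ a, t a)⁻¹ ≤ (1 + δ) * Real.exp 1 ^ (k * D) * cc x * (M.det ^ k)⁻¹ := by
      rw [← div_eq_mul_inv, le_div_iff₀ hMk, inv_mul_le_iff₀ hT]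
      calc M.det ^ k ≤ (1 + δ) * Real.exp 1 ^ (k * D) * cc x * ∏ a, t a := hcap
        _ = (∏ a, t a) * ((1 + δ) * Real.exp 1 ^ (k * D) * cc x) := by ring
    calc (∏ a, q a)⁻¹ * (∏ a, t a)⁻¹
        ≤ (∏ a, q a)⁻¹ * ((1 + δ) * Real.exp 1 ^ (k * D) * cc x * (M.det ^ k)⁻¹) :=
          mul_le_mul_of_nonneg_left h3 (inv_pos.mpr hQ).le
      _ = (1 + δ) * ((∏ a, q a)⁻¹ * (M.det ^ k)⁻¹ * cc x) * Real.exp 1 ^ (k * D) := by ring

end Pool.Agent.Tvw
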