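import Pool.Agent.Tvw.Stmts

/-!
# Quadratic functions and product weights (MP_001fdd_co, absolute constant, module Quad)
-/

set_option autoImplicit false

namespace Pool.Agent.Tvw

open scoped Classical ENNReal
open MeasureTheory

/-- the factors of a monomial of degree one -/
noncomputable def qf1 {ι : Type} (w : ι → ℝ → ℝ) (i l : ι) (s : ℝ) : ℝ :=
  if l = i then s * w l s else w l s

/-- the factors of a monomial of degree two -/
noncomputable def qf2 {ι : Type} (w : ι → ℝ → ℝ) (i j l : ι) (s : ℝ) : ℝ :=
  if l = i then (if l = j then s ^ 2 * w l s else s * w l s) else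
    (if l = j then s * w l s else w l s)

theorem qf1_prod {ι : Type} [Fintype ι] (w : ι → ℝ → ℝ) (i : ι) (s : ι → ℝ) :
    ∏ l, qf1 w i l (s l) = s i * ∏ l, w l (s l) := by
  have h : ∀ l, qf1 w i l (s l) = (if l = i then s l else 1) * w l (s l) := by
    intro l
    unfold qf1
    split_ifs <;> ring
  rw [Finset.prod_congr rfl fun l _ => h l, Finset.prod_mul_distrib,
    Finset.prod_ite_eq' Finset.univ i, if_pos (Finset.mem_univ _)]

theorem qf2_prod {ι : Type} [Fintype ι] (w : ι → ℝ → ℝ) (i j : ι) (s : ι → ℝ) :
    ∏ l, qf2 w i j l (s l) = s i * s j * ∏ l, w l (s l) := by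
  have h : ∀ l, qf2 w i j l (s l) =
      (if l = i then s l else 1) * (if l = j then s l else 1) * w l (s l) := by
    intro l
    unfold qf2
    split_ifs <;> ring
  rw [Finset.prod_congr rfl fun l _ => h l, Finset.prod_mul_distrib, Finset.prod_mul_distrib,
    Finset.prod_ite_eq' Finset.univ i, if_pos (Finset.mem_univ _),
    Finset.prod_ite_eq' Finset.univ j, if_pos (Finset.mem_univ _)]

theorem vQuad : Stmt_Quad := by
  intro ι κ _ _ u w v h0 h1 h2 hz hv A L B
  have g1 : ∀ i, Integrable (fun s : ι → ℝ => s i * ∏ l, w l (s l)) := by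
    intro i
    have := Integrable.fintype_prod (μ := fun _ : ι => (volume : Measure ℝ)) (f := qf1 w i)
      (fun l => by
        unfold qf1
        by_cases h : l = i
        · simp only [h, if_true]; exact h1 i
        · simp only [h, if_false]; exact h0 l)
    simp only [qf1_prod] at this
    exact this
  have g2 : ∀ i j, Integrable (fun s : ι → ℝ => s i * s j * ∏ l, w l (s l)) := by
    intro i j
    have := Integrable.fintype_prod (μ := fun _ : ι => (volume : Measure ℝ)) (f := qf2 w i j)
      (fun l => by
        unfold qf2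
        by_cases h : l = i <;> by_cases h' : l = j
        · subst h; simp only [h', if_true]; rw [← h']; exact h2 l
        · subst h; simp only [h', if_true, if_false]; exact h1 l
        · subst h'; simp only [h, if_true, if_false]; exact h1 l
        · simp only [h, h', if_false]; exact h0 l)
    simp only [qf2_prod] at this
    exact this
  have g0 : Integrable (fun s : ι → ℝ => ∏ l, w l (s l)) :=
    Integrable.fintype_prod (μ := fun _ : ι => (volume : Measure ℝ)) (f := w) h0
  have e1 : ∀ i, ∫ s : ι → ℝ, s i * ∏ l, w l (s l) = 0 := by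
    intro i
    have := integral_fintype_prod_volume_eq_prod (𝕜 := ℝ) (qf1 w i)
    simp only [qf1_prod] at this
    rw [this]
    refine Finset.prod_eq_zero (Finset.mem_univ i) ?_
    unfold qf1
    simp only [if_true]
    exact hz i
  have e2 : ∀ i j, ∫ s : ι → ℝ, s i * s j * ∏ l, w l (s l) =
      if i = j then v i * ∏ l, ∫ s, w l s else 0 := by
    intro i j
    have := integral_fintype_prod_volume_eq_prod (𝕜 := ℝ) (qf2 w i j)
    simp only [qf2_prod] at this
    rw [this]
    by_cases h : i = j
    · subst h
      rw [if_pos rfl, ← Finset.mul_prod_erase Finset.univ _ (Finset.mem_univ i),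
        ← Finset.mul_prod_erase Finset.univ (fun l => ∫ s, w l s) (Finset.mem_univ i), ← mul_assoc]
      congr 1
      · unfold qf2
        simp only [if_true]
        exact hv i
      · refine Finset.prod_congr rfl fun l hl => ?_
        have hne : l ≠ i := (Finset.mem_erase.1 hl).1
        unfold qf2
        simp only [hne, if_false]
    · rw [if_neg h]
      refine Finset.prod_eq_zero (Finset.mem_univ i) ?_
      unfold qf2
      simp only [h, if_true, if_false]
      exact hz i
  have hexp : ∀ s : ι → ℝ, (A + ∑ i, L i * s i + B * ∑ c, (∑ i, s i * u i c) ^ 2) *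
      ∏ i, w i (s i) = A * ∏ i, w i (s i) + (∑ i, L i * (s i * ∏ l, w l (s l)) +
      ∑ c, ∑ i, ∑ j, (B * (u i c * u j c)) * (s i * s j * ∏ l, w l (s l))) := by
    intro s
    rw [add_mul, add_mul, add_assoc]
    congr 1
    congr 1
    · rw [Finset.sum_mul]
      exact Finset.sum_congr rfl fun i _ => by ring
    · rw [Finset.mul_sum, Finset.sum_mul]
      refine Finset.sum_congr rfl fun c _ => ?_
      rw [sq, Finset.sum_mul_sum, Finset.mul_sum, Finset.sum_mul]
      refine Finset.sum_congr rfl fun i _ => ?_
      rw [Finset.mul_sum, Finset.sum_mul]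
      exact Finset.sum_congr rfl fun j _ => by ring
  have i1 : Integrable (fun s : ι → ℝ => ∑ i, L i * (s i * ∏ l, w l (s l))) :=
    integrable_finsetSum _ fun i _ => (g1 i).const_mul _
  have i2 : Integrable (fun s : ι → ℝ =>
      ∑ c, ∑ i, ∑ j, (B * (u i c * u j c)) * (s i * s j * ∏ l, w l (s l))) :=
    integrable_finsetSum _ fun c _ => integrable_finsetSum _ fun i _ =>
      integrable_finsetSum _ fun j _ => (g2 i j).const_mul _
  have i0 : Integrable (fun s : ι → ℝ => A * ∏ l, w l (s l)) := g0.const_mul A
  have i3 : Integrable (fun s : ι → ℝ => ∑ i, L i * (s i * ∏ l, w l (s l)) +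
      ∑ c, ∑ i, ∑ j, (B * (u i c * u j c)) * (s i * s j * ∏ l, w l (s l))) := i1.add i2
  simp only [hexp]
  refine ⟨i0.add i3, ?_⟩
  rw [integral_add i0 i3, integral_add i1 i2, integral_const_mul,
    integral_fintype_prod_volume_eq_prod,
    integral_finsetSum _ fun i _ => (g1 i).const_mul _,
    integral_finsetSum _ fun c _ => integrable_finsetSum _ fun i _ =>
      integrable_finsetSum _ fun j _ => (g2 i j).const_mul _]
  have h3 : ∑ i, ∫ s : ι → ℝ, L i * (s i * ∏ l, w l (s l)) = 0 := by
    refine Finset.sum_eq_zero fun i _ => ?_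
    rw [integral_const_mul, e1, mul_zero]
  have h4 : ∑ c, ∫ s : ι → ℝ, ∑ i, ∑ j, (B * (u i c * u j c)) * (s i * s j * ∏ l, w l (s l)) =
      B * (∑ i, v i * ∑ c, (u i c) ^ 2) * ∏ l, ∫ s, w l s := by
    have h5 : ∀ c, ∫ s : ι → ℝ, ∑ i, ∑ j, (B * (u i c * u j c)) *
        (s i * s j * ∏ l, w l (s l)) = ∑ i, B * (v i * (u i c) ^ 2) * ∏ l, ∫ s, w l s := by
      intro c
      rw [integral_finsetSum _ fun i _ =>
        integrable_finsetSum _ fun j _ => (g2 i j).const_mul _]
      refine Finset.sum_congr rfl fun i _ => ?_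
      rw [integral_finsetSum _ fun j _ => (g2 i j).const_mul _]
      simp only [integral_const_mul, e2]
      rw [Finset.sum_eq_single i]
      · rw [if_pos rfl]; ring
      · intro j _ hj
        rw [if_neg (Ne.symm hj), mul_zero]
      · intro h; exact absurd (Finset.mem_univ _) h
    rw [Finset.sum_congr rfl fun c _ => h5 c, Finset.sum_comm, Finset.mul_sum, Finset.sum_mul]
    refine Finset.sum_congr rfl fun i _ => ?_
    rw [Finset.mul_sum, Finset.mul_sum, Finset.sum_mul]
  rw [h3, h4]
  ring

end Pool.Agent.Tvw
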