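import Pool.Agent.Tvw.Help

/-!
# The Gaussian integral of a power (MP_001fdd_co, absolute constant, module Rad)
-/

set_option autoImplicit false

namespace Pool.Agent.Tvw

open scoped Classical ENNReal
open MeasureTheory

theorem vRad : Stmt_Rad := by
  intro ι _
  have h1 : ∀ y : ι → ℝ, (1 + (∑ c, (y c) ^ 2) / (4 * Fintype.card ι)) ^ Fintype.card ι *
      Real.exp (-(∑ c, (y c) ^ 2) / 2) ≤ (3 / 2 * Real.exp (-(1 / 3))) ^ Fintype.card ι *
        Real.exp (-(∑ c, (y c) ^ 2) * (1 / 3)) := by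
    intro y
    set S : ℝ := ∑ c, (y c) ^ 2 with hS
    have hS0 : 0 ≤ S := Finset.sum_nonneg fun c _ => sq_nonneg _
    rcases Nat.eq_zero_or_pos (Fintype.card ι) with h0 | hpos
    · rw [h0]
      simp only [pow_zero, one_mul]
      apply Real.exp_le_exp.2
      linarith
    · have hn : (0 : ℝ) < Fintype.card ι := by exact_mod_cast hpos
      have h2 : 1 + S / (4 * Fintype.card ι) ≤
          3 / 2 * Real.exp ((S / Fintype.card ι - 2) / 6) := by
        have := Real.add_one_le_exp ((S / Fintype.card ι - 2) / 6)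
        have h5 : S / (4 * Fintype.card ι) = S / Fintype.card ι / 4 := by
          rw [div_div, mul_comm]
        rw [h5]
        linarith
      have h3 : (1 + S / (4 * Fintype.card ι)) ^ Fintype.card ι ≤
          (3 / 2 * Real.exp ((S / Fintype.card ι - 2) / 6)) ^ Fintype.card ι :=
        pow_le_pow_left₀ (by positivity) h2 _
      refine (mul_le_mul_of_nonneg_right h3 (Real.exp_pos _).le).trans (le_of_eq ?_)
      rw [mul_pow, mul_pow, ← Real.exp_nat_mul, ← Real.exp_nat_mul, mul_assoc, mul_assoc,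
        ← Real.exp_add, ← Real.exp_add]
      congr 2
      field_simp
      ring
  have hE : 0 ≤ (3 / 2 * Real.exp (-(1 / 3))) ^ Fintype.card ι := by positivity
  calc ∫⁻ y : ι → ℝ, ENNReal.ofReal ((1 + (∑ c, (y c) ^ 2) / (4 * Fintype.card ι)) ^ Fintype.card ι *
        Real.exp (-(∑ c, (y c) ^ 2) / 2))
      ≤ ∫⁻ y : ι → ℝ, ENNReal.ofReal ((3 / 2 * Real.exp (-(1 / 3))) ^ Fintype.card ι) *
        ENNReal.ofReal (Real.exp (-(∑ c, (y c) ^ 2) * (1 / 3))) := by
        refine lintegral_mono fun y => ?_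
        rw [← ENNReal.ofReal_mul hE]
        exact ENNReal.ofReal_le_ofReal (h1 y)
    _ = ENNReal.ofReal ((3 / 2 * Real.exp (-(1 / 3))) ^ Fintype.card ι) *
        ENNReal.ofReal (√(Real.pi / (1 / 3)) ^ Fintype.card ι) := by
        rw [lintegral_const_mul', aux_gauss (1 / 3) (by norm_num)]
        exact ENNReal.ofReal_ne_top
    _ = ENNReal.ofReal ((3 / 2 * Real.exp (-(1 / 3)) * √(3 * Real.pi)) ^ Fintype.card ι) := by
        rw [← ENNReal.ofReal_mul hE]
        have h2 : Real.pi / (1 / 3) = 3 * Real.pi := by ring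
        rw [h2]
        congr 1
        ring
    _ ≤ _ := le_rfl

end Pool.Agent.Tvw
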