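import Pool.Agent.Tvw.Stmts

/-!
# The critical point (MP_001fdd_co, absolute constant, module Tau)
-/

set_option autoImplicit false

namespace Pool.Agent.Tvw

open scoped Classical ENNReal

/-- the function which is minimised -/
noncomputable def tauG {ι : Type} [Fintype ι] (u : ι → ι → ℝ) (τ : ι → ℝ) : ℝ :=
  -(∑ a, Real.log (τ a)) + (∑ c, (∑ a, τ a * u a c) ^ 2) / 2

/-- change of one coordinate -/
theorem tau_upd {ι : Type} [Fintype ι] (u : ι → ι → ℝ) (τ : ι → ℝ) (a : ι) (s : ℝ) :
    tauG u (Function.update τ a s) - tauG u τ = Real.log (τ a) - Real.log s +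
      (s - τ a) * ∑ c, (∑ b, τ b * u b c) * u a c + (s - τ a) ^ 2 * (∑ c, (u a c) ^ 2) / 2 := by
  have h1 : ∑ b, Real.log (Function.update τ a s b) =
      ∑ b, Real.log (τ b) + (Real.log s - Real.log (τ a)) := by
    rw [← Finset.add_sum_erase Finset.univ _ (Finset.mem_univ a),
      ← Finset.add_sum_erase Finset.univ (fun b => Real.log (τ b)) (Finset.mem_univ a),
      Function.update_self]
    have : ∀ b ∈ Finset.univ.erase a, Real.log (Function.update τ a s b) = Real.log (τ b) := by
      intro b hb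
      rw [Function.update_of_ne (Finset.mem_erase.1 hb).1]
    rw [Finset.sum_congr rfl this]
    ring
  have h2 : ∀ c, ∑ b, Function.update τ a s b * u b c =
      ∑ b, τ b * u b c + (s - τ a) * u a c := by
    intro c
    rw [← Finset.add_sum_erase Finset.univ _ (Finset.mem_univ a),
      ← Finset.add_sum_erase Finset.univ (fun b => τ b * u b c) (Finset.mem_univ a),
      Function.update_self]
    have : ∀ b ∈ Finset.univ.erase a, Function.update τ a s b * u b c = τ b * u b c := by
      intro b hb
      rw [Function.update_of_ne (Finset.mem_erase.1 hb).1]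
    rw [Finset.sum_congr rfl this]
    ring
  unfold tauG
  rw [h1]
  simp only [h2]
  have h3 : ∑ c, (∑ b, τ b * u b c + (s - τ a) * u a c) ^ 2 =
      ∑ c, (∑ b, τ b * u b c) ^ 2 + 2 * ((s - τ a) * ∑ c, (∑ b, τ b * u b c) * u a c) +
        (s - τ a) ^ 2 * ∑ c, (u a c) ^ 2 := by
    rw [Finset.mul_sum, Finset.mul_sum, Finset.mul_sum, ← Finset.sum_add_distrib,
      ← Finset.sum_add_distrib]
    exact Finset.sum_congr rfl fun c _ => by ring
  rw [h3]
  ring

theorem vTau : Stmt_Tau := by
  intro ι _ u hu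
  set n : ℝ := (Fintype.card ι : ℝ) with hn
  have hn0 : 0 ≤ n := Nat.cast_nonneg _
  set ε : ℝ := 1 / (n + 2) with hε
  have hε0 : 0 < ε := by positivity
  have hε1 : ε < 1 := by
    rw [hε, div_lt_one (by linarith)]
    linarith
  have hεn : n * ε < 1 := by
    rw [hε, mul_one_div, div_lt_one (by linarith)]
    linarith
  let K : Set (ι → ℝ) := Set.Icc (fun _ => ε) (fun _ => 1)
  have hK : IsCompact K := isCompact_Icc
  have hKne : K.Nonempty := ⟨fun _ => 1, ⟨fun _ => hε1.le, fun _ => le_rfl⟩⟩
  have hcont : ContinuousOn (tauG u) K := by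
    unfold tauG
    refine ContinuousOn.add (ContinuousOn.neg (continuousOn_finsetSum _ fun a _ => ?_)) ?_
    · refine ContinuousOn.log (continuous_apply a).continuousOn fun τ hτ => ?_
      have := hτ.1 a
      linarith
    · exact Continuous.continuousOn (by fun_prop)
  obtain ⟨τ, hτK, hmin⟩ := hK.exists_isMinOn hKne hcont
  have hτε : ∀ a, ε ≤ τ a := fun a => hτK.1 a
  have hτ1 : ∀ a, τ a ≤ 1 := fun a => hτK.2 a
  have hτ0 : ∀ a, 0 < τ a := fun a => lt_of_lt_of_le hε0 (hτε a)
  -- the scalar products are at most `n`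
  have hsp : ∀ a, ∑ c, (∑ b, τ b * u b c) * u a c ≤ n := by
    intro a
    have h1 : ∑ c, (∑ b, τ b * u b c) * u a c = ∑ b, τ b * ∑ c, u b c * u a c := by
      simp only [Finset.sum_mul, Finset.mul_sum]
      rw [Finset.sum_comm]
      exact Finset.sum_congr rfl fun b _ => Finset.sum_congr rfl fun c _ => by ring
    rw [h1]
    have h2 : ∀ b, τ b * ∑ c, u b c * u a c ≤ 1 := by
      intro b
      have h3 : ∑ c, u b c * u a c ≤ 1 := by
        have : ∑ c, u b c * u a c ≤ ∑ c, ((u b c) ^ 2 + (u a c) ^ 2) / 2 :=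
          Finset.sum_le_sum fun c _ => by nlinarith [sq_nonneg (u b c - u a c)]
        refine this.trans ?_
        rw [← Finset.sum_div, Finset.sum_add_distrib]
        linarith [hu a, hu b]
      calc τ b * ∑ c, u b c * u a c ≤ τ b * 1 := mul_le_mul_of_nonneg_left h3 (hτ0 b).le
        _ ≤ 1 := by rw [mul_one]; exact hτ1 b
    calc ∑ b, τ b * ∑ c, u b c * u a c ≤ ∑ _b : ι, (1 : ℝ) := Finset.sum_le_sum fun b _ => h2 b
      _ = n := by simp [hn]
  -- the variation
  have hvar : ∀ a s, ε ≤ s → s ≤ 1 →
      0 ≤ Real.log (τ a) - Real.log s + (s - τ a) * (∑ c, (∑ b, τ b * u b c) * u a c) +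
        (s - τ a) ^ 2 / 2 := by
    intro a s hs1 hs2
    have hmem : Function.update τ a s ∈ K := by
      refine ⟨fun b => ?_, fun b => ?_⟩
      · by_cases h : b = a
        · subst h; simpa using hs1
        · rw [Function.update_of_ne h]; exact hτε b
      · by_cases h : b = a
        · subst h; simpa using hs2
        · rw [Function.update_of_ne h]; exact hτ1 b
    have h1 := hmin hmem
    have h2 := tau_upd u τ a s
    have h3 : tauG u τ ≤ tauG u (Function.update τ a s) := h1
    have h4 : (s - τ a) ^ 2 * (∑ c, (u a c) ^ 2) / 2 ≤ (s - τ a) ^ 2 / 2 := by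
      nlinarith [sq_nonneg (s - τ a), hu a]
    linarith
  refine ⟨τ, fun a => ⟨hτ0 a, hτ1 a, ?_⟩⟩
  set p := ∑ c, (∑ b, τ b * u b c) * u a c with hp
  -- upper variation
  have hup : τ a < 1 → 1 ≤ τ a * p := by
    intro h
    by_contra hc
    push Not at hc
    -- choose s = τ + η
    have key : ∀ η : ℝ, 0 < η → τ a + η ≤ 1 → 1 ≤ (τ a + η) * p + (τ a + η) * η / 2 := by
      intro η hη hη1
      have h1 := hvar a (τ a + η) (by linarith [hτε a]) hη1
      have h2 : τ a + η - τ a = η := by ring
      rw [h2] at h1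
      have h3 : 1 - ((τ a + η) / τ a)⁻¹ ≤ Real.log ((τ a + η) / τ a) :=
        Real.one_sub_inv_le_log_of_pos (div_pos (by linarith [hτ0 a]) (hτ0 a))
      rw [Real.log_div (by linarith [hτ0 a]) (hτ0 a).ne', inv_div] at h3
      have h4 : 1 - τ a / (τ a + η) = η / (τ a + η) := by
        have : τ a + η ≠ 0 := by linarith [hτ0 a]
        field_simp
        ring
      rw [h4] at h3
      have h5 : η / (τ a + η) ≤ η * p + η ^ 2 / 2 := by linarith
      rw [div_le_iff₀ (by linarith [hτ0 a])] at h5
      have h6 : η * 1 ≤ η * ((τ a + η) * p + (τ a + η) * η / 2) := by nlinarith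
      exact le_of_mul_le_mul_left h6 hη
    have htend : Filter.Tendsto (fun η : ℝ => (τ a + η) * p + (τ a + η) * η / 2)
        (nhdsWithin 0 (Set.Ioi 0)) (nhds (τ a * p)) := by
      have hc' : Continuous (fun η : ℝ => (τ a + η) * p + (τ a + η) * η / 2) := by fun_prop
      have := hc'.tendsto 0
      simp only [add_zero, mul_zero, zero_div] at this
      exact this.mono_left nhdsWithin_le_nhds
    have hge : 1 ≤ τ a * p := by
      refine ge_of_tendsto htend ?_
      have hmem : Set.Ioo (0 : ℝ) (1 - τ a) ∈ nhdsWithin (0 : ℝ) (Set.Ioi 0) :=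
        Ioo_mem_nhdsGT (by linarith)
      filter_upwards [hmem] with η hη
      exact key η hη.1 (by linarith [hη.2])
    linarith
  -- lower variation
  have hlo : ε < τ a → τ a * p ≤ 1 := by
    intro h
    have key : ∀ η : ℝ, 0 < η → ε ≤ τ a - η → (τ a - η) * p ≤ 1 + (τ a - η) * η / 2 := by
      intro η hη hη1
      have h1 := hvar a (τ a - η) hη1 (by linarith [hτ1 a])
      have h2 : τ a - η - τ a = -η := by ring
      rw [h2] at h1
      have hpos : 0 < τ a - η := by linarith
      have h3 : Real.log (τ a / (τ a - η)) ≤ τ a / (τ a - η) - 1 :=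
        Real.log_le_sub_one_of_pos (div_pos (hτ0 a) hpos)
      rw [Real.log_div (hτ0 a).ne' hpos.ne'] at h3
      have h4 : τ a / (τ a - η) - 1 = η / (τ a - η) := by
        field_simp
        ring
      rw [h4] at h3
      have h5 : η * p - η ^ 2 / 2 ≤ η / (τ a - η) := by nlinarith
      rw [le_div_iff₀ hpos] at h5
      have h6 : η * ((τ a - η) * p) ≤ η * (1 + (τ a - η) * η / 2) := by nlinarith
      exact le_of_mul_le_mul_left h6 hη
    have htend : Filter.Tendsto (fun η : ℝ => (τ a - η) * p - (τ a - η) * η / 2)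
        (nhdsWithin 0 (Set.Ioi 0)) (nhds (τ a * p)) := by
      have hc' : Continuous (fun η : ℝ => (τ a - η) * p - (τ a - η) * η / 2) := by fun_prop
      have := hc'.tendsto 0
      simp only [sub_zero, mul_zero, zero_div] at this
      exact this.mono_left nhdsWithin_le_nhds
    refine le_of_tendsto htend ?_
    have hmem : Set.Ioo (0 : ℝ) (τ a - ε) ∈ nhdsWithin (0 : ℝ) (Set.Ioi 0) :=
      Ioo_mem_nhdsGT (by linarith)
    filter_upwards [hmem] with η hη
    linarith [key η hη.1 (by linarith [hη.2])]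
  rcases lt_or_ge (τ a) 1 with h | h
  · right
    have h1 := hup h
    have h2 : ε < τ a := by
      by_contra hc
      push Not at hc
      have h3 : τ a = ε := le_antisymm hc (hτε a)
      rw [h3] at h1
      have : ε * p ≤ ε * n := mul_le_mul_of_nonneg_left (hsp a) hε0.le
      linarith
    exact le_antisymm (hlo h2) h1
  · left
    have h1 : τ a = 1 := le_antisymm (hτ1 a) h
    have h2 := hlo (by linarith)
    rw [h1, one_mul] at h2
    exact ⟨h1, h2⟩

end Pool.Agent.Tvw
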