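import Pool.Agent.Tvv.MainV
import Pool.Agent.Tvw.FinalW
import Pool.Agent.Tvw.Quad
import Pool.Agent.Tvw.Sca
import Pool.Agent.Tvw.Tau
import Pool.Agent.Tvw.Box
import Pool.Agent.Tvw.Dual
import Pool.Agent.Tvw.GauV
import Pool.Agent.Tvw.Rad
import Pool.Agent.Tvw.CB
import Pool.Agent.Tvw.PosI
import Pool.Agent.Tvw.CoreW

/-!
# The theorem with an absolute constant (MP_001fdd_co)
-/

set_option autoImplicit false

namespace Pool.Agent.Tvw

open scoped Classical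
open Pool.Agent.Tvb (Pos Zero Base Good hat TP)
open Pool.Agent.Tvv

theorem coreW : Stmt_CoreW := by
  have hC : Stmt_Const := vConst (Pool.Agent.Tvo.oVec Pool.Agent.Tvo.oReal)
  have hG : Stmt_Gur := vGur (vChn vUni vDer) vDetH vCoe
  exact vCoreW (vPosI (vCap hG vMdc)) (vGauV hC vAe vInt) vTau (vBox vQuad) (vDual vQuad vSca)
    vCB vRad vHad vInv

theorem finW (k d : ℕ) (hk : 1 ≤ k)
    (S : Finset (EuclideanSpace ℝ (Fin d))) (hS : S.card = k * (d + 1) + 1) :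
    (k.factorial : ℝ) ^ d ≤
      (Real.exp 1 * k) ^ (d + 1) * ((12 : ℝ) ^ (d + 1)) ^ k * ((TP (k + 1) S).ncard : ℝ) :=
  finalW (vCls vApX vApW Pool.Agent.Tvo.oClo) vCvx vLab vAri k d hk _ (by positivity)
    (fun x ω hx hG => coreW k (d + 1) hk (by omega) x ω hx hG) S hS

/-- the theorem, for `k + 1` parts -/
theorem mainW (k d : ℕ) (hk : 1 ≤ k)
    (S : Finset (EuclideanSpace ℝ (Fin d))) (hS : S.card = k * (d + 1) + 1) :
    (k.factorial : ℝ) ^ d ≤
      (Real.exp 1 * k) ^ (d + 1) * (min (k1 (d + 1)) ((12 : ℝ) ^ (d + 1))) ^ k *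
        ((TP (k + 1) S).ncard : ℝ) := by
  rcases min_choice (k1 (d + 1)) ((12 : ℝ) ^ (d + 1)) with h | h
  · rw [h]
    exact finV k d hk _ (k1_pos _) (vBall k (d + 1) (by omega)) S hS
  · rw [h]
    exact finW k d hk S hS

end Pool.Agent.Tvw
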