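import Pool.Agent.Tvw.Stmts

/-!
# Auxiliary lemmas (MP_001fdd_co, absolute constant)
-/

set_option autoImplicit false

namespace Pool.Agent.Tvw

open scoped Classical ENNReal
open MeasureTheory

theorem aux_ofReal {α : Type} [MeasurableSpace α] {μ : Measure α} (f : α → ℝ)
    (hf : Integrable f μ) : ENNReal.ofReal (∫ x, f x ∂μ) ≤ ∫⁻ x, ENNReal.ofReal (f x) ∂μ := by
  rw [integral_eq_lintegral_pos_part_sub_lintegral_neg_part hf]
  refine le_trans (ENNReal.ofReal_le_ofReal (sub_le_self _ ENNReal.toReal_nonneg)) ?_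
  exact ENNReal.ofReal_toReal_le

/-- the square of the norm of a sum -/
theorem aux_sq {ι : Type} [Fintype ι] (u : ι → ι → ℝ) (s τ : ι → ℝ) :
    ∑ c, (∑ a, (s + τ) a * u a c) ^ 2 = ∑ c, (∑ a, τ a * u a c) ^ 2 +
      2 * ∑ a, s a * (∑ c, (∑ b, τ b * u b c) * u a c) + ∑ c, (∑ a, s a * u a c) ^ 2 := by
  have h1 : ∑ a, s a * (∑ c, (∑ b, τ b * u b c) * u a c) =
      ∑ c, (∑ a, s a * u a c) * (∑ b, τ b * u b c) := by
    have h0 : ∀ S : ι → ℝ, ∑ a, s a * ∑ c, S c * u a c = ∑ c, (∑ a, s a * u a c) * S c := by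
      intro S
      simp only [Finset.sum_mul, Finset.mul_sum]
      rw [Finset.sum_comm]
      exact Finset.sum_congr rfl fun b _ => Finset.sum_congr rfl fun c _ => by ring
    exact h0 fun c => ∑ b, τ b * u b c
  rw [h1, Finset.mul_sum, ← Finset.sum_add_distrib, ← Finset.sum_add_distrib]
  refine Finset.sum_congr rfl fun c _ => ?_
  have h2 : ∑ a, (s + τ) a * u a c = ∑ a, s a * u a c + ∑ a, τ a * u a c := by
    rw [← Finset.sum_add_distrib]
    exact Finset.sum_congr rfl fun a _ => by rw [Pi.add_apply]; ring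
  rw [h2]
  ring

/-- Gaussian integrals -/
theorem aux_gauss {ι : Type} [Fintype ι] (b : ℝ) (hb : 0 < b) :
    ∫⁻ y : ι → ℝ, ENNReal.ofReal (Real.exp (-(∑ c, (y c) ^ 2) * b)) =
      ENNReal.ofReal (√(Real.pi / b) ^ Fintype.card ι) := by
  have h1 : ∀ y : ι → ℝ, Real.exp (-(∑ c, (y c) ^ 2) * b) = ∏ c, Real.exp (-b * (y c) ^ 2) := by
    intro y
    rw [← Real.exp_sum, ← Finset.mul_sum]
    congr 1
    ring
  simp only [h1]
  rw [← ofReal_integral_eq_lintegral_ofReal]
  · rw [integral_fintype_prod_volume_eq_prod (𝕜 := ℝ) (fun (_ : ι) s => Real.exp (-b * s ^ 2))]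
    rw [Finset.prod_const, Finset.card_univ, integral_gaussian]
  · exact Integrable.fintype_prod (μ := fun _ : ι => (volume : Measure ℝ))
      (f := fun _ s => Real.exp (-b * s ^ 2)) fun _ => integrable_exp_neg_mul_sq hb
  · exact Filter.Eventually.of_forall fun y => Finset.prod_nonneg fun c _ => (Real.exp_pos _).le

end Pool.Agent.Tvw
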