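import Pool.Agent.Tvv.Pst
import Pool.Agent.Tvv.Had

/-!
# The position, with the isotropy bound (MP_001fdd_co, absolute constant, module N1)
-/

set_option autoImplicit false

namespace Pool.Agent.Tvw

open scoped Classical ENNReal
open Pool.Agent.Tvb (Pos Zero Base Good hat TP)
open Pool.Agent.Tvv
open MeasureTheory

/-- the matrix `∑ t_a x_a x_aᵀ` -/
noncomputable def MM {k D : ℕ} (x : J k D → Fin D → ℝ) (t : J k D → ℝ) :
    Matrix (Fin D) (Fin D) ℝ :=
  Matrix.of fun i i' : Fin D => ∑ a, t a * (x a i * x a i')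

theorem MM_quad {k D : ℕ} (x : J k D → Fin D → ℝ) (t : J k D → ℝ) (w : Fin D → ℝ) :
    w ⬝ᵥ (MM x t).mulVec w = ∑ a, t a * (∑ i, x a i * w i) ^ 2 := by
  simp only [dotProduct, Matrix.mulVec, MM, Matrix.of_apply]
  calc ∑ i, w i * ∑ i', (∑ a, t a * (x a i * x a i')) * w i'
      = ∑ i, ∑ i', ∑ a, t a * (x a i * w i) * (x a i' * w i') := by
        refine Finset.sum_congr rfl fun i _ => ?_
        rw [Finset.mul_sum]
        refine Finset.sum_congr rfl fun i' _ => ?_
        rw [Finset.sum_mul, Finset.mul_sum]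
        refine Finset.sum_congr rfl fun a _ => by ring
    _ = ∑ a, ∑ i, ∑ i', t a * (x a i * w i) * (x a i' * w i') := by
        rw [Finset.sum_comm (s := (Finset.univ : Finset (J k D)))]
        refine Finset.sum_congr rfl fun i _ => ?_
        rw [Finset.sum_comm]
    _ = ∑ a, t a * (∑ i, x a i * w i) ^ 2 := by
        refine Finset.sum_congr rfl fun a _ => ?_
        rw [sq, Finset.sum_mul_sum, Finset.mul_sum]
        refine Finset.sum_congr rfl fun i _ => ?_
        rw [Finset.mul_sum]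
        refine Finset.sum_congr rfl fun i' _ => by ring

theorem MM_posDef {k D : ℕ} (hk : 1 ≤ k) (x : J k D → Fin D → ℝ) (hx : 0 < cc x)
    (t : J k D → ℝ) (ht : ∀ a, 0 < t a) : (MM x t).PosDef := by
  refine Matrix.PosDef.of_dotProduct_mulVec_pos ?_ ?_
  · ext i i'
    simp only [MM, Matrix.conjTranspose_apply, Matrix.of_apply, star_trivial]
    refine Finset.sum_congr rfl fun a _ => by ring
  · intro w hw
    rw [star_trivial, MM_quad]
    have hnn : ∀ a ∈ (Finset.univ : Finset (J k D)), 0 ≤ t a * (∑ i, x a i * w i) ^ 2 :=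
      fun a _ => mul_nonneg (ht a).le (sq_nonneg _)
    rcases (Finset.sum_nonneg hnn).lt_or_eq with h | h
    · exact h
    · exfalso
      apply hw
      apply pst_span hk x hx
      intro a
      have h2 := (Finset.sum_eq_zero_iff_of_nonneg hnn).mp h.symm a (Finset.mem_univ a)
      rcases mul_eq_zero.mp h2 with h3 | h3
      · exact absurd h3 (ht a).ne'
      · exact pow_eq_zero_iff (two_ne_zero) |>.mp h3

/-- everything about one point `t` -/
theorem MM_data {k D : ℕ} (hk : 1 ≤ k) (x : J k D → Fin D → ℝ) (hx : 0 < cc x)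
    (t : J k D → ℝ) (ht : ∀ a, 0 < t a) : ∃ g : Matrix (Fin D) (Fin D) ℝ,
      (MM x t)⁻¹ = g.transpose * g ∧ g.det ^ 2 = ((MM x t).det)⁻¹ ∧ g.det ≠ 0 ∧
      (∀ a, 0 < ∑ i, (g.mulVec (x a) i) ^ 2) ∧
      ∑ a, t a * ∑ i, (g.mulVec (x a) i) ^ 2 = D ∧
      (∀ y : Fin D → ℝ, ∑ a, t a * (∑ i, g.mulVec (x a) i * y i) ^ 2 = ∑ i, (y i) ^ 2) := by
  have hMpos := MM_posDef hk x hx t ht
  obtain ⟨g, hg⟩ := pst_sqrt (MM x t)⁻¹ hMpos.inv.posSemidef
  have hdetM : 0 < (MM x t).det := hMpos.det_pos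
  have hdetg2 : g.det ^ 2 = ((MM x t).det)⁻¹ := by
    have := congrArg Matrix.det hg
    rw [Matrix.det_mul, Matrix.det_transpose, Matrix.det_nonsing_inv,
      Ring.inverse_eq_inv'] at this
    rw [sq, this]
  have hdetg : g.det ≠ 0 := by
    intro h0
    rw [h0] at hdetg2
    have : (0 : ℝ) < ((MM x t).det)⁻¹ := inv_pos.mpr hdetM
    rw [← hdetg2] at this
    norm_num at this
  refine ⟨g, hg, hdetg2, hdetg, ?_, ?_, ?_⟩
  · intro a
    have hne : g.mulVec (x a) ≠ 0 := by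
      intro h0
      exact pst_ne x hx a (by
        by_contra hne
        exact hdetg (Matrix.exists_mulVec_eq_zero_iff.mp ⟨_, hne, h0⟩))
    obtain ⟨i, hi⟩ := Function.ne_iff.mp hne
    refine Finset.sum_pos' (fun i _ => sq_nonneg _) ⟨i, Finset.mem_univ i, ?_⟩
    have : g.mulVec (x a) i ≠ 0 := hi
    positivity
  · have h1 : ∑ a, t a * ∑ i, (g.mulVec (x a) i) ^ 2 = Matrix.trace ((MM x t)⁻¹ * MM x t) := by
      rw [hg]
      exact pst_trace x t g
    rw [h1, Matrix.nonsing_inv_mul _ (by rw [isUnit_iff_ne_zero]; exact hdetM.ne'),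
      Matrix.trace_one, Fintype.card_fin]
  · intro y
    have h1 : ∀ a, ∑ i, g.mulVec (x a) i * y i = ∑ i, x a i * (g.transpose.mulVec y) i := by
      intro a
      have h2 : g.mulVec (x a) ⬝ᵥ y = x a ⬝ᵥ g.transpose.mulVec y := by
        rw [Matrix.mulVec_transpose, dotProduct_comm, Matrix.dotProduct_mulVec, dotProduct_comm]
      exact h2
    simp only [h1]
    rw [← MM_quad]
    have h3 : MM x t * (g.transpose * g) = 1 := by
      rw [← hg]
      exact Matrix.mul_nonsing_inv _ (by rw [isUnit_iff_ne_zero]; exact hdetM.ne')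
    have hgu : IsUnit g.det := by rw [isUnit_iff_ne_zero]; exact hdetg
    have h4 : g * (MM x t * g.transpose) = 1 := by
      have h5 : (MM x t * g.transpose) * g = 1 := by rw [Matrix.mul_assoc]; exact h3
      exact mul_eq_one_comm.mp h5
    have h6 : g.transpose.mulVec y ⬝ᵥ (MM x t).mulVec (g.transpose.mulVec y) =
        y ⬝ᵥ (g * (MM x t * g.transpose)).mulVec y := by
      rw [← Matrix.mulVec_mulVec, ← Matrix.mulVec_mulVec]
      rw [Matrix.dotProduct_mulVec y, ← Matrix.mulVec_transpose]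
    rw [h6, h4, Matrix.one_mulVec]
    simp only [dotProduct]
    exact Finset.sum_congr rfl fun i _ => by ring

/-- the ratio is bounded from below -/
theorem MM_lower (hH : Stmt_Had) {k D : ℕ} (hk : 1 ≤ k) (x : J k D → Fin D → ℝ) (hx : 0 < cc x)
    (t : J k D → ℝ) (ht : ∀ a, 0 < t a) :
    cc x * ∏ a, t a ≤ ((Fintype.card (J k D → Fin k) : ℝ) * (k : ℝ) ^ D) * (MM x t).det ^ k := by
  obtain ⟨g, hg, hdetg2, hdetg, hqpos, htr, hiso⟩ := MM_data hk x hx t ht
  have hdetM : 0 < (MM x t).det := (MM_posDef hk x hx t ht).det_pos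
  -- the vectors `√t_a g x_a` have norm at most 1
  have hn1 : ∀ a, ∑ i, (√(t a) * g.mulVec (x a) i) ^ 2 ≤ 1 := by
    intro a
    set q := ∑ i, (g.mulVec (x a) i) ^ 2 with hq
    have h1 := hiso (g.mulVec (x a))
    have h2 : t a * (∑ i, g.mulVec (x a) i * g.mulVec (x a) i) ^ 2 ≤
        ∑ b, t b * (∑ i, g.mulVec (x b) i * g.mulVec (x a) i) ^ 2 :=
      Finset.single_le_sum (f := fun b => t b * (∑ i, g.mulVec (x b) i * g.mulVec (x a) i) ^ 2)
        (fun b _ => mul_nonneg (ht b).le (sq_nonneg _)) (Finset.mem_univ a)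
    rw [h1] at h2
    have h3 : ∑ i, g.mulVec (x a) i * g.mulVec (x a) i = q :=
      Finset.sum_congr rfl fun i _ => by ring
    rw [h3, ← hq] at h2
    have hqa : 0 < q := hqpos a
    have h4 : t a * q ≤ 1 := by
      have : t a * q * q ≤ 1 * q := by nlinarith
      exact le_of_mul_le_mul_right this hqa
    calc ∑ i, (√(t a) * g.mulVec (x a) i) ^ 2 = t a * q := by
          rw [hq, Finset.mul_sum]
          refine Finset.sum_congr rfl fun i _ => ?_
          rw [mul_pow, Real.sq_sqrt (ht a).le]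
      _ ≤ 1 := h4
  have hcc := pst_cc x g (fun a => √(t a))
  have hup : cc (fun a i => √(t a) * g.mulVec (x a) i) ≤
      (Fintype.card (J k D → Fin k) : ℝ) * (k : ℝ) ^ D := by
    unfold cc
    calc ∑ π : J k D → Fin k, dd (fun a i => √(t a) * g.mulVec (x a) i) (fun a => some (π a)) ^ 2
        ≤ ∑ _π : J k D → Fin k, (k : ℝ) ^ D :=
          Finset.sum_le_sum fun π _ => hH k D hk _ hn1 _
      _ = (Fintype.card (J k D → Fin k) : ℝ) * (k : ℝ) ^ D := by
          rw [Finset.sum_const, nsmul_eq_mul, Finset.card_univ]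
  rw [hcc, hdetg2] at hup
  have hp : (∏ a, √(t a)) ^ 2 = ∏ a, t a := by
    rw [← Finset.prod_pow]
    exact Finset.prod_congr rfl fun a _ => Real.sq_sqrt (ht a).le
  rw [hp, inv_pow] at hup
  have hMk : (0 : ℝ) < (MM x t).det ^ k := pow_pos hdetM k
  calc cc x * ∏ a, t a = ((∏ a, t a) * ((MM x t).det ^ k)⁻¹ * cc x) * (MM x t).det ^ k := by
        field_simp
    _ ≤ _ := mul_le_mul_of_nonneg_right hup hMk.le

/-- a near minimiser of the ratio -/
theorem MM_min (hC : Stmt_Cap) (hH : Stmt_Had) {k D : ℕ} (hk : 1 ≤ k) (x : J k D → Fin D → ℝ)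
    (hx : 0 < cc x) (ε : ℝ) (hε : 0 < ε) : ∃ t : J k D → ℝ, (∀ a, 0 < t a) ∧
      (MM x t).det ^ k ≤ (1 + ε) * Real.exp 1 ^ (k * D) * cc x * ∏ a, t a ∧
      ∀ s : J k D → ℝ, (∀ a, 0 < s a) →
        (MM x t).det ^ k * ∏ a, s a ≤ (1 + ε) * ((MM x s).det ^ k * ∏ a, t a) := by
  set R : (J k D → ℝ) → ℝ := fun t => (MM x t).det ^ k / ∏ a, t a with hR
  set S : Set ℝ := R '' {t | ∀ a, 0 < t a} with hS
  set K : ℝ := (Fintype.card (J k D → Fin k) : ℝ) * (k : ℝ) ^ D with hK
  have hKpos : 0 < K := by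
    have hk0 : (0 : ℝ) < k := by exact_mod_cast hk
    have : Nonempty (J k D → Fin k) := ⟨fun _ => ⟨0, hk⟩⟩
    have h1 : (0 : ℝ) < (Fintype.card (J k D → Fin k) : ℝ) := by
      exact_mod_cast Fintype.card_pos
    positivity
  have hprod : ∀ t : J k D → ℝ, (∀ a, 0 < t a) → 0 < ∏ a, t a := fun t ht =>
    Finset.prod_pos fun a _ => ht a
  have hlow : ∀ t : J k D → ℝ, (∀ a, 0 < t a) → cc x / K ≤ R t := by
    intro t ht
    have h1 := MM_lower hH hk x hx t ht
    rw [hR]
    simp only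
    rw [div_le_div_iff₀ hKpos (hprod t ht)]
    linarith
  have hne : S.Nonempty := ⟨R fun _ => 1, ⟨fun _ => 1, fun _ => one_pos, rfl⟩⟩
  have hbdd : BddBelow S := ⟨cc x / K, by
    rintro _ ⟨t, ht, rfl⟩
    exact hlow t ht⟩
  have hcpos : 0 < sInf S := by
    have h1 : cc x / K ≤ sInf S := le_csInf hne (by
      rintro _ ⟨t, ht, rfl⟩
      exact hlow t ht)
    exact lt_of_lt_of_le (div_pos hx hKpos) h1
  have hcle : sInf S ≤ Real.exp 1 ^ (k * D) * cc x := by
    have hE : (0 : ℝ) < Real.exp 1 ^ (k * D) * cc x := mul_pos (pow_pos (Real.exp_pos 1) _) hx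
    refine le_of_forall_pos_le_add fun η hη => ?_
    obtain ⟨t, ht, hcap⟩ := hC k D x hx (η / (Real.exp 1 ^ (k * D) * cc x)) (div_pos hη hE)
    have h1 : sInf S ≤ R t := csInf_le hbdd ⟨t, ht, rfl⟩
    refine h1.trans ?_
    rw [hR]
    simp only
    rw [div_le_iff₀ (hprod t ht)]
    calc (MM x t).det ^ k ≤ (1 + η / (Real.exp 1 ^ (k * D) * cc x)) *
          Real.exp 1 ^ (k * D) * cc x * ∏ a, t a := hcap
      _ = (Real.exp 1 ^ (k * D) * cc x + η) * ∏ a, t a := by
          field_simp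
  obtain ⟨_, ⟨t, ht, rfl⟩, hlt⟩ := exists_lt_of_csInf_lt hne
    (show sInf S < (1 + ε) * sInf S by nlinarith)
  refine ⟨t, ht, ?_, ?_⟩
  · have h1 : R t ≤ (1 + ε) * (Real.exp 1 ^ (k * D) * cc x) :=
      hlt.le.trans (mul_le_mul_of_nonneg_left hcle (by linarith))
    rw [hR] at h1
    simp only at h1
    rw [div_le_iff₀ (hprod t ht)] at h1
    calc (MM x t).det ^ k ≤ _ := h1
      _ = _ := by ring
  · intro s hs
    have h1 : R t ≤ (1 + ε) * R s :=
      hlt.le.trans (mul_le_mul_of_nonneg_left (csInf_le hbdd ⟨s, hs, rfl⟩) (by linarith))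
    rw [hR] at h1
    simp only at h1
    have hs0 := hprod s hs
    have ht0 := hprod t ht
    rw [div_le_iff₀ ht0] at h1
    calc (MM x t).det ^ k * ∏ a, s a
        ≤ ((1 + ε) * ((MM x s).det ^ k / ∏ a, s a) * ∏ a, t a) * ∏ a, s a :=
          mul_le_mul_of_nonneg_right h1 hs0.le
      _ = (1 + ε) * ((MM x s).det ^ k * ∏ a, t a) := by
          field_simp

/-- the norms at a near minimiser -/
theorem MM_norm {k D : ℕ} (hk : 1 ≤ k) (x : J k D → Fin D → ℝ) (hx : 0 < cc x)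
    (t : J k D → ℝ) (ht : ∀ a, 0 < t a) (η : ℝ) (hη : 0 < η)
    (hmin : ∀ s : J k D → ℝ, (∀ a, 0 < s a) →
        (MM x t).det ^ k * ∏ a, s a ≤ (1 + η ^ 2) * ((MM x s).det ^ k * ∏ a, t a))
    (g : Matrix (Fin D) (Fin D) ℝ) (hg : (MM x t)⁻¹ = g.transpose * g) (b : J k D) :
    1 - 2 * η ≤ k * (t b * ∑ i, (g.mulVec (x b) i) ^ 2) := by
  have hdetM : 0 < (MM x t).det := (MM_posDef hk x hx t ht).det_pos
  set q := ∑ i, (g.mulVec (x b) i) ^ 2 with hq
  -- the test point
  set s : J k D → ℝ := Function.update t b (t b * (1 + η)) with hs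
  have hspos : ∀ a, 0 < s a := by
    intro a
    rw [hs]
    by_cases h : a = b
    · subst h
      rw [Function.update_self]
      exact mul_pos (ht a) (by linarith)
    · rw [Function.update_of_ne h]
      exact ht a
  have hsprod : ∏ a, s a = (1 + η) * ∏ a, t a := by
    rw [hs, Finset.prod_update_of_mem (Finset.mem_univ b)]
    rw [← Finset.mul_prod_erase Finset.univ t (Finset.mem_univ b), Finset.sdiff_singleton_eq_erase]
    ring
  have hMs : MM x s = MM x t + Matrix.replicateCol (Fin 1) (fun i => η * t b * x b i) *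
      Matrix.replicateRow (Fin 1) (x b) := by
    ext i i'
    simp only [MM, Matrix.of_apply, Matrix.add_apply, Matrix.mul_apply,
      Matrix.replicateCol_apply, Matrix.replicateRow_apply, Finset.univ_unique,
      Finset.sum_singleton]
    rw [← Finset.add_sum_erase Finset.univ (fun a => s a * (x a i * x a i')) (Finset.mem_univ b),
      ← Finset.add_sum_erase Finset.univ (fun a => t a * (x a i * x a i')) (Finset.mem_univ b)]
    have h1 : ∑ a ∈ Finset.univ.erase b, s a * (x a i * x a i') =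
        ∑ a ∈ Finset.univ.erase b, t a * (x a i * x a i') := by
      refine Finset.sum_congr rfl fun a ha => ?_
      rw [hs, Function.update_of_ne (Finset.ne_of_mem_erase ha)]
    rw [h1, hs]
    simp only [Function.update_self]
    ring
  have hdet : (MM x s).det = (MM x t).det * (1 + η * (t b * q)) := by
    have hdu : IsUnit (MM x t).det := isUnit_iff_ne_zero.mpr hdetM.ne'
    rw [hMs, Matrix.det_add_mul _ _ hdu]
    congr 1
    rw [hg, Matrix.det_fin_one]
    simp only [Matrix.add_apply, Matrix.one_apply_eq]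
    congr 1
    rw [Matrix.mul_apply]
    simp only [Matrix.mul_apply, Matrix.replicateRow_apply, Matrix.replicateCol_apply,
      Matrix.transpose_apply]
    rw [hq]
    simp only [Matrix.mulVec, dotProduct]
    calc ∑ j, (∑ i, x b i * ∑ l, g l i * g l j) * (η * t b * x b j)
        = ∑ j, ∑ i, ∑ l, η * t b * ((g l i * x b i) * (g l j * x b j)) := by
          refine Finset.sum_congr rfl fun j _ => ?_
          rw [Finset.sum_mul]
          refine Finset.sum_congr rfl fun i _ => ?_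
          rw [Finset.mul_sum, Finset.sum_mul]
          refine Finset.sum_congr rfl fun l _ => by ring
      _ = ∑ l, ∑ i, ∑ j, η * t b * ((g l i * x b i) * (g l j * x b j)) := by
          rw [Finset.sum_comm]
          rw [show (∑ y, ∑ x_1, ∑ l, η * t b * (g l y * x b y * (g l x_1 * x b x_1))) =
            ∑ y, ∑ l, ∑ x_1, η * t b * (g l y * x b y * (g l x_1 * x b x_1)) from
            Finset.sum_congr rfl fun y _ => Finset.sum_comm]
          rw [Finset.sum_comm]
      _ = η * (t b * ∑ l, (∑ i, g l i * x b i) ^ 2) := by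
          rw [Finset.mul_sum, Finset.mul_sum]
          refine Finset.sum_congr rfl fun l _ => ?_
          rw [sq, Finset.sum_mul_sum, Finset.mul_sum, Finset.mul_sum]
          refine Finset.sum_congr rfl fun i _ => ?_
          rw [Finset.mul_sum, Finset.mul_sum]
          refine Finset.sum_congr rfl fun j _ => by ring
  have hT : (0 : ℝ) < ∏ a, t a := Finset.prod_pos fun a _ => ht a
  have hMk : (0 : ℝ) < (MM x t).det ^ k := pow_pos hdetM k
  have h1 := hmin s hspos
  rw [hsprod, hdet, mul_pow] at h1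
  have h2 : 1 + η ≤ (1 + η ^ 2) * (1 + η * (t b * q)) ^ k := by
    have h3 : ((MM x t).det ^ k * ∏ a, t a) * (1 + η) ≤
        ((MM x t).det ^ k * ∏ a, t a) * ((1 + η ^ 2) * (1 + η * (t b * q)) ^ k) := by
      calc ((MM x t).det ^ k * ∏ a, t a) * (1 + η)
          = (MM x t).det ^ k * ((1 + η) * ∏ a, t a) := by ring
        _ ≤ _ := h1
        _ = _ := by ring
    exact le_of_mul_le_mul_left h3 (mul_pos hMk hT)
  have hq0 : 0 ≤ q := Finset.sum_nonneg fun i _ => sq_nonneg _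
  have hp0 : 0 ≤ t b * q := mul_nonneg (ht b).le hq0
  -- `(1 + ηp)^k ≤ exp (k η p)`
  have h4 : (1 + η * (t b * q)) ^ k ≤ Real.exp (k * (η * (t b * q))) := by
    rw [Real.exp_nat_mul]
    refine pow_le_pow_left₀ (by positivity) ?_ k
    linarith [Real.add_one_le_exp (η * (t b * q))]
  have h5 : (1 + η ^ 2) ≤ Real.exp (η ^ 2) := by linarith [Real.add_one_le_exp (η ^ 2)]
  have h6 : 1 + η ≤ Real.exp (η ^ 2 + k * (η * (t b * q))) := by
    rw [Real.exp_add]
    refine h2.trans ?_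
    exact mul_le_mul h5 h4 (by positivity) (Real.exp_pos _).le
  have h7 : η - η ^ 2 ≤ Real.log (1 + η) := by
    have h8 := Real.one_sub_inv_le_log_of_pos (show 0 < 1 + η by linarith)
    refine le_trans ?_ h8
    have h9 : 1 - (1 + η)⁻¹ = η / (1 + η) := by
      field_simp
      ring
    rw [h9, le_div_iff₀ (by linarith)]
    nlinarith [mul_pos hη hη, mul_pos (mul_pos hη hη) hη]
  have h9 : Real.log (1 + η) ≤ η ^ 2 + k * (η * (t b * q)) := by
    rw [Real.log_le_iff_le_exp (by linarith)]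
    exact h6
  have h10 : η * (1 - 2 * η) ≤ η * (k * (t b * q)) := by nlinarith
  exact le_of_mul_le_mul_left h10 hη

/-- N1: the position. -/
theorem vPst2 (hC : Stmt_Cap) (hH : Stmt_Had) : ∀ (k D : ℕ) (x : J k D → Fin D → ℝ), 1 ≤ k →
    0 < cc x → ∀ δ : ℝ, 0 < δ →
    ∃ (g : Matrix (Fin D) (Fin D) ℝ) (r : J k D → ℝ), g.det ≠ 0 ∧ (∀ a, 0 < r a) ∧
      (∀ a, ∑ i, (r a * g.mulVec (x a) i) ^ 2 = 1) ∧
      (∀ y : Fin D → ℝ, ∑ a, (∑ i, (r a * g.mulVec (x a) i) * y i) ^ 2 ≤
        (1 + δ) * k * ∑ i, (y i) ^ 2) ∧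
      ((k : ℝ) / Real.exp 1) ^ (k * D) ≤ (1 + δ) * cc (fun a i => r a * g.mulVec (x a) i) := by
  intro k D x hk hx δ hδ
  obtain ⟨η, hη, hη4, hηδ, hηδ2⟩ : ∃ η : ℝ, 0 < η ∧ η ≤ 1 / 4 ∧ η ^ 2 ≤ δ ∧
      1 / (1 - 2 * η) ≤ 1 + δ := by
    refine ⟨min (1 / 4) (δ / (4 * (1 + δ))), ?_, min_le_left _ _, ?_, ?_⟩
    · have : 0 < δ / (4 * (1 + δ)) := by positivity
      exact lt_min (by norm_num) this
    · have h1 : min (1 / 4) (δ / (4 * (1 + δ))) ≤ 1 / 4 := min_le_left _ _
      have h2 : min (1 / 4) (δ / (4 * (1 + δ))) ≤ δ / (4 * (1 + δ)) := min_le_right _ _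
      have h3 : 0 < min (1 / 4) (δ / (4 * (1 + δ))) := by
        have : 0 < δ / (4 * (1 + δ)) := by positivity
        exact lt_min (by norm_num) this
      have h4 : δ / (4 * (1 + δ)) ≤ δ := by
        rw [div_le_iff₀ (by positivity)]
        nlinarith
      nlinarith
    · have h2 : min (1 / 4) (δ / (4 * (1 + δ))) ≤ δ / (4 * (1 + δ)) := min_le_right _ _
      have h1 : min (1 / 4) (δ / (4 * (1 + δ))) ≤ 1 / 4 := min_le_left _ _
      set η := min (1 / 4) (δ / (4 * (1 + δ)))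
      rw [div_le_iff₀ (by linarith)]
      rw [le_div_iff₀ (by positivity)] at h2
      nlinarith
  obtain ⟨t, ht, hcap, hmin⟩ := MM_min hC hH hk x hx (η ^ 2) (by positivity)
  obtain ⟨g, hg, hdetg2, hdetg, hqpos, htr, hiso⟩ := MM_data hk x hx t ht
  have hnorm := MM_norm hk x hx t ht η hη hmin g hg
  have hdetM : 0 < (MM x t).det := (MM_posDef hk x hx t ht).det_pos
  have hk0 : (0 : ℝ) < k := by exact_mod_cast hk
  -- the squared norms
  set q : J k D → ℝ := fun a => ∑ i, (g.mulVec (x a) i) ^ 2 with hq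
  set r : J k D → ℝ := fun a => 1 / √(q a) with hr
  have hqpos' : ∀ a, 0 < q a := hqpos
  have hrpos : ∀ a, 0 < r a := fun a => one_div_pos.mpr (Real.sqrt_pos.mpr (hqpos' a))
  have hr2 : ∀ a, r a ^ 2 = (q a)⁻¹ := by
    intro a
    rw [hr]
    simp only
    rw [div_pow, one_pow, Real.sq_sqrt (hqpos' a).le, one_div]
  refine ⟨g, r, hdetg, hrpos, ?_, ?_, ?_⟩
  · intro a
    calc ∑ i, (r a * g.mulVec (x a) i) ^ 2 = r a ^ 2 * q a := by
          rw [hq, Finset.mul_sum]
          refine Finset.sum_congr rfl fun i _ => by ring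
      _ = 1 := by rw [hr2, inv_mul_cancel₀ (hqpos' a).ne']
  · intro y
    have h1 : ∀ a, (∑ i, (r a * g.mulVec (x a) i) * y i) ^ 2 ≤
        (k / (1 - 2 * η)) * (t a * (∑ i, g.mulVec (x a) i * y i) ^ 2) := by
      intro a
      have h2 : (∑ i, (r a * g.mulVec (x a) i) * y i) ^ 2 =
          (q a)⁻¹ * (∑ i, g.mulVec (x a) i * y i) ^ 2 := by
        rw [← hr2, ← mul_pow, Finset.mul_sum]
        congr 1
        exact Finset.sum_congr rfl fun i _ => by ring
      rw [h2]
      have h3 : (q a)⁻¹ ≤ k / (1 - 2 * η) * t a := by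
        have h4 : 1 - 2 * η ≤ k * (t a * q a) := hnorm a
        rw [inv_le_iff_one_le_mul₀ (hqpos' a)]
        have h5 : (0 : ℝ) < 1 - 2 * η := by linarith
        rw [show k / (1 - 2 * η) * t a * q a = (k * (t a * q a)) / (1 - 2 * η) by ring]
        rw [le_div_iff₀ h5]
        linarith
      calc (q a)⁻¹ * (∑ i, g.mulVec (x a) i * y i) ^ 2
          ≤ (k / (1 - 2 * η) * t a) * (∑ i, g.mulVec (x a) i * y i) ^ 2 :=
            mul_le_mul_of_nonneg_right h3 (sq_nonneg _)
        _ = _ := by ring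
    calc ∑ a, (∑ i, (r a * g.mulVec (x a) i) * y i) ^ 2
        ≤ ∑ a, (k / (1 - 2 * η)) * (t a * (∑ i, g.mulVec (x a) i * y i) ^ 2) :=
          Finset.sum_le_sum fun a _ => h1 a
      _ = (k / (1 - 2 * η)) * ∑ i, (y i) ^ 2 := by
          rw [← Finset.mul_sum, hiso y]
      _ = (1 / (1 - 2 * η)) * (k * ∑ i, (y i) ^ 2) := by ring
      _ ≤ (1 + δ) * (k * ∑ i, (y i) ^ 2) :=
          mul_le_mul_of_nonneg_right hηδ2
            (mul_nonneg hk0.le (Finset.sum_nonneg fun i _ => sq_nonneg _))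
      _ = (1 + δ) * k * ∑ i, (y i) ^ 2 := by ring
  · rw [pst_cc, hdetg2]
    -- the trace
    have ham := pst_amgm (fun a => t a * q a) fun a => (mul_pos (ht a) (hqpos' a)).le
    rw [htr, Fintype.card_prod, Fintype.card_fin, Fintype.card_fin] at ham
    have hE : (0 : ℝ) < Real.exp 1 ^ (k * D) := pow_pos (Real.exp_pos 1) _
    have hP : (0 : ℝ) < ∏ a, (t a * q a) := Finset.prod_pos fun a _ => mul_pos (ht a) (hqpos' a)
    have h1 : (k : ℝ) ^ (k * D) * ∏ a, (t a * q a) ≤ 1 := by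
      rcases Nat.eq_zero_or_pos D with h0 | hD
      · subst h0
        simp
      · have hD0 : (0 : ℝ) < D := by exact_mod_cast hD
        calc (k : ℝ) ^ (k * D) * ∏ a, (t a * q a)
            ≤ (k : ℝ) ^ (k * D) * ((D : ℝ) / ((k * D : ℕ) : ℝ)) ^ (k * D) :=
              mul_le_mul_of_nonneg_left ham (pow_nonneg hk0.le _)
          _ = 1 := by
              rw [← mul_pow]
              push_cast
              rw [show (k : ℝ) * ((D : ℝ) / ((k : ℝ) * D)) = 1 by field_simp, one_pow]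
    have hprod : (∏ a, r a) ^ 2 = (∏ a, q a)⁻¹ := by
      rw [← Finset.prod_pow, ← Finset.prod_inv_distrib]
      exact Finset.prod_congr rfl fun a _ => hr2 a
    have hQ : (0 : ℝ) < ∏ a, q a := Finset.prod_pos fun a _ => hqpos' a
    have hT : (0 : ℝ) < ∏ a, t a := Finset.prod_pos fun a _ => ht a
    rw [hprod, inv_pow, div_pow, div_le_iff₀ hE]
    rw [Finset.prod_mul_distrib] at h1
    have hMk : (0 : ℝ) < (MM x t).det ^ k := pow_pos hdetM k
    have h2 : (k : ℝ) ^ (k * D) ≤ (∏ a, q a)⁻¹ * (∏ a, t a)⁻¹ := by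
      rw [← mul_inv, ← one_div, le_div_iff₀ (mul_pos hQ hT)]
      calc (k : ℝ) ^ (k * D) * ((∏ a, q a) * ∏ a, t a)
          = (k : ℝ) ^ (k * D) * ((∏ a, t a) * ∏ a, q a) := by ring
        _ ≤ 1 := h1
    refine h2.trans ?_
    have hcap2 : (MM x t).det ^ k ≤ (1 + δ) * Real.exp 1 ^ (k * D) * cc x * ∏ a, t a := by
      refine hcap.trans ?_
      have h5 : 0 ≤ Real.exp 1 ^ (k * D) * cc x * ∏ a, t a := by positivity
      calc (1 + η ^ 2) * Real.exp 1 ^ (k * D) * cc x * ∏ a, t a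
          = (1 + η ^ 2) * (Real.exp 1 ^ (k * D) * cc x * ∏ a, t a) := by ring
        _ ≤ (1 + δ) * (Real.exp 1 ^ (k * D) * cc x * ∏ a, t a) :=
            mul_le_mul_of_nonneg_right (by linarith) h5
        _ = _ := by ring
    have h3 : (∏ a, t a)⁻¹ ≤ (1 + δ) * Real.exp 1 ^ (k * D) * cc x * ((MM x t).det ^ k)⁻¹ := by
      rw [← div_eq_mul_inv, le_div_iff₀ hMk, inv_mul_le_iff₀ hT]
      calc (MM x t).det ^ k ≤ (1 + δ) * Real.exp 1 ^ (k * D) * cc x * ∏ a, t a := hcap2
        _ = (∏ a, t a) * ((1 + δ) * Real.exp 1 ^ (k * D) * cc x) := by ring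
    calc (∏ a, q a)⁻¹ * (∏ a, t a)⁻¹
        ≤ (∏ a, q a)⁻¹ * ((1 + δ) * Real.exp 1 ^ (k * D) * cc x * ((MM x t).det ^ k)⁻¹) :=
          mul_le_mul_of_nonneg_left h3 (inv_pos.mpr hQ).le
      _ = (1 + δ) * ((∏ a, q a)⁻¹ * ((MM x t).det ^ k)⁻¹ * cc x) * Real.exp 1 ^ (k * D) := by ring

end Pool.Agent.Tvw
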