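import Pool.Agent.Tvv.Stmts

/-!
# Lower bounds for the number of Tverberg partitions (MP_001fdd_co), an absolute constant:
definitions and frozen statements
-/

set_option autoImplicit false

namespace Pool.Agent.Tvw

open scoped Classical ENNReal
open Pool.Agent.Tvb (Pos Zero Base Good hat TP)
open Pool.Agent.Tvv
open MeasureTheory

/-- the integral over the orthant -/
noncomputable def I1 {ι : Type} [Fintype ι] (u : ι → ι → ℝ) : ℝ≥0∞ :=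
  ∫⁻ t in {t : ι → ℝ | ∀ a, 0 < t a},
    ENNReal.ofReal (Real.exp (-(∑ c, (∑ a, t a * u a c) ^ 2) / 2))

/-- the weight -/
noncomputable def Ps (s : ℝ) : ℝ := Real.exp 1 / 2 * (1 + s ^ 2)

/-- the dual integral -/
noncomputable def I2 {ι : Type} [Fintype ι] (u : ι → ι → ℝ) : ℝ≥0∞ :=
  ∫⁻ y : ι → ℝ, ENNReal.ofReal
    ((∏ a, Ps (∑ c, y c * u a c)) * Real.exp (-(∑ c, (y c) ^ 2) / 2))

/-- `τ` is the critical point -/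
def Crit {ι : Type} [Fintype ι] (u : ι → ι → ℝ) (τ : ι → ℝ) : Prop :=
  ∀ a, 0 < τ a ∧ τ a ≤ 1 ∧ ((τ a = 1 ∧ ∑ c, (∑ b, τ b * u b c) * u a c ≤ 1) ∨
    τ a * ∑ c, (∑ b, τ b * u b c) * u a c = 1)

/-- W1: the position. -/
def Stmt_PosI : Prop := ∀ (k D : ℕ) (x : J k D → Fin D → ℝ), 1 ≤ k → 0 < cc x →
  ∀ δ : ℝ, 0 < δ →
  ∃ (g : Matrix (Fin D) (Fin D) ℝ) (r : J k D → ℝ), g.det ≠ 0 ∧ (∀ a, 0 < r a) ∧
    (∀ a, ∑ i, (r a * g.mulVec (x a) i) ^ 2 = 1) ∧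
    (∀ y : Fin D → ℝ, ∑ a, (∑ i, y i * (r a * g.mulVec (x a) i)) ^ 2 ≤
      (1 + δ) * k * ∑ i, (y i) ^ 2) ∧
    ((k : ℝ) / Real.exp 1) ^ (k * D) ≤ (1 + δ) * cc (fun a i => r a * g.mulVec (x a) i)

/-- W2: the Gaussian measure of the cones. -/
def Stmt_GauV : Prop := ∀ (k D : ℕ) (x : J k D → Fin D → ℝ) (ω : J k D → ℝ), Gen x ω →
  ∑ π : J k D → Fin k, ENNReal.ofReal ((dd x (fun a => some (π a))) ^ 2) *
    I1 (fun a c => UU x (fun a => some (π a)) a c / 2) ≤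
    ENNReal.ofReal (VV x ω * √(8 * Real.pi) ^ (k * D))

/-- W3: the critical point. -/
def Stmt_Tau : Prop := ∀ (ι : Type) [Fintype ι] (u : ι → ι → ℝ), (∀ a, ∑ c, (u a c) ^ 2 ≤ 1) →
  ∃ τ : ι → ℝ, Crit u τ

/-- W4: the integral over the orthant. -/
def Stmt_Box : Prop := ∀ (ι : Type) [Fintype ι] (u : ι → ι → ℝ) (τ : ι → ℝ),
  (∀ a, ∑ c, (u a c) ^ 2 ≤ 1 / 4) → (∀ a, 0 < τ a ∧ τ a ≤ 1) →
  ENNReal.ofReal (Real.exp (7 / 8) ^ Fintype.card ι * ((∏ a, τ a) *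
    Real.exp (-(∑ c, (∑ a, τ a * u a c) ^ 2) / 2))) ≤ I1 u

/-- W5: the dual integral. -/
def Stmt_Dual : Prop := ∀ (ι : Type) [Fintype ι] (u : ι → ι → ℝ) (τ : ι → ℝ),
  (∀ a, ∑ c, (u a c) ^ 2 ≤ 1 / 4) → Crit u τ →
  ENNReal.ofReal (√(8 * Real.pi / 5) ^ Fintype.card ι * ((∏ a, τ a)⁻¹ *
    Real.exp ((∑ c, (∑ a, τ a * u a c) ^ 2) / 2))) ≤ I2 u

/-- W6: the scalar inequality. -/
def Stmt_Sca : Prop := ∀ τ p δ : ℝ, 0 < τ → τ ≤ 1 → (τ = 1 ∧ p ≤ 1 ∨ τ * p = 1) →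
  τ⁻¹ * Real.exp (τ * (p + δ) - δ ^ 2 / 2) ≤ Ps (p + δ)

/-- W7: quadratic functions and product weights. -/
def Stmt_Quad : Prop := ∀ (ι κ : Type) [Fintype ι] [Fintype κ] (u : ι → κ → ℝ)
  (w : ι → ℝ → ℝ) (v : ι → ℝ),
  (∀ i, Integrable (w i)) → (∀ i, Integrable fun s => s * w i s) →
  (∀ i, Integrable fun s => s ^ 2 * w i s) → (∀ i, ∫ s, s * w i s = 0) →
  (∀ i, ∫ s, s ^ 2 * w i s = v i * ∫ s, w i s) → ∀ (A : ℝ) (L : ι → ℝ) (B : ℝ),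
  Integrable (fun s : ι → ℝ => (A + ∑ i, L i * s i + B * ∑ c, (∑ i, s i * u i c) ^ 2) *
    ∏ i, w i (s i)) ∧
  ∫ s : ι → ℝ, (A + ∑ i, L i * s i + B * ∑ c, (∑ i, s i * u i c) ^ 2) * ∏ i, w i (s i) =
    (A + B * ∑ i, v i * ∑ c, (u i c) ^ 2) * ∏ i, ∫ s, w i s

/-- W8: sums of squares of determinants. -/
def Stmt_CB : Prop := ∀ (k D : ℕ) (x : J k D → Fin D → ℝ) (c : Fin k → J k D → ℝ),
  (∀ a, ∑ i, (x a i) ^ 2 ≤ 1) → (∀ j a, 0 ≤ c j a) →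
  ∑ π : J k D → Fin k, (dd x (fun a => some (π a))) ^ 2 * ∏ a, c (π a) a ≤
    ((∑ j, ∑ a, c j a) / (k * D : ℕ)) ^ (k * D)

/-- W9: the Gaussian integral of a power. -/
def Stmt_Rad : Prop := ∀ (ι : Type) [Fintype ι], ∫⁻ y : ι → ℝ,
  ENNReal.ofReal ((1 + (∑ c, (y c) ^ 2) / (4 * Fintype.card ι)) ^ Fintype.card ι *
    Real.exp (-(∑ c, (y c) ^ 2) / 2)) ≤
  ENNReal.ofReal ((3 / 2 * Real.exp (-(1 / 3)) * √(3 * Real.pi)) ^ Fintype.card ι)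

/-- W10: the lower bound. -/
def Stmt_CoreW : Prop := ∀ (k D : ℕ), 1 ≤ k → 1 ≤ D → ∀ (x : J k D → Fin D → ℝ)
  (ω : J k D → ℝ), 0 < cc x → Gen x ω →
  ((k : ℝ) / Real.exp 1) ^ (k * D) ≤
    (cnt x ω : ℝ) * (√((k : ℝ) ^ D) * ((12 : ℝ) ^ D) ^ k)

end Pool.Agent.Tvw
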